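import Mathlib

/-!
# The Erdős–Rado bound for colourings without monochromatic triangles
-/

open Cardinal Set

universe u

namespace Pool.Agent.Lib.MP_cad5e4_lc

/-- If the pairs of `B` are coloured by `A` (infinite) without monochromatic triangles, then
`#B ≤ 2 ^ #A`. -/
theorem card_le_two_pow {A B : Type u} (hA : ℵ₀ ≤ #A) (c : B → B → A)
    (htri : ∀ x y z, x ≠ y → y ≠ z → x ≠ z → c x y = c y z → c x z = c y z → False) :
    #B ≤ 2 ^ #A := by
  classical
  obtain ⟨_, hwf⟩ := exists_wellFoundedLT B
  obtain ⟨P, hP⟩ : ∃ P : B → B → Prop, ∀ b x, P b x ↔ x < b ∧ ∀ y < x, P b y → c y x = c y b := by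
    refine ⟨fun b => hwf.wf.fix (C := fun _ => Prop)
      (fun x ih => x < b ∧ ∀ y (h : y < x), ih y h → c y x = c y b), fun b x => ?_⟩
    beta_reduce
    conv_lhs => rw [WellFounded.fix_eq]
  have hinj : ∀ b x y, P b x → P b y → c x b = c y b → x = y := by
    intro b x y hx hy h
    rcases lt_trichotomy x y with hlt | heq | hlt
    · exact (htri x y b hlt.ne ((hP b y).1 hy).1.ne ((hP b x).1 hx).1.ne
        ((((hP b y).1 hy).2 x hlt hx).trans h) h).elim
    · exact heq
    · exact (htri y x b hlt.ne ((hP b x).1 hx).1.ne ((hP b y).1 hy).1.ne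
        ((((hP b x).1 hx).2 y hlt hy).trans h.symm) h.symm).elim
  let W : B → Set (A × A) := fun b => {p | ∃ x y, P b x ∧ P b y ∧ y ≤ x ∧ p = (c y b, c x b)}
  have key : ∀ b b', b < b' → W b = W b' → False := by
    intro b b' hbb' hW
    have lemA : ∀ x, x < b → (P b x ↔ P b' x) ∧ (P b x → c x b = c x b') := by
      intro x
      induction x using hwf.wf.induction with
      | _ x ih =>
        intro hxb
        have hmem : P b x ↔ P b' x := by
          rw [hP b x, hP b' x]
          constructor
          · rintro ⟨_, h⟩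
            refine ⟨hxb.trans hbb', fun y hy hyb => ?_⟩
            have h1 := ih y hy (lt_trans hy hxb)
            rw [← h1.2 (h1.1.2 hyb)]
            exact h y hy (h1.1.2 hyb)
          · rintro ⟨_, h⟩
            refine ⟨hxb, fun y hy hyb => ?_⟩
            have h1 := ih y hy (lt_trans hy hxb)
            rw [h1.2 hyb]
            exact h y hy (h1.1.1 hyb)
        refine ⟨hmem, fun hx => ?_⟩
        have hx' := hmem.1 hx
        have h1 : (c x b, c x b) ∈ W b := ⟨x, x, hx, hx, le_rfl, rfl⟩
        rw [hW] at h1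
        obtain ⟨x', _, hx1, _, _, h2⟩ := h1
        have h3 : c x b = c x' b' := congrArg Prod.snd h2
        rcases lt_trichotomy x' x with hlt | heq | hlt
        · have h4 := ih x' hlt (lt_trans hlt hxb)
          have h5 := h4.1.2 hx1
          have h6 := h4.2 h5
          exact absurd (hinj b x' x h5 hx (h6.trans h3.symm)) hlt.ne
        · rw [h3, heq]
        · have h4 : (c x b', c x' b') ∈ W b' := ⟨x', x, hx1, hx', hlt.le, rfl⟩
          rw [← hW] at h4
          obtain ⟨v, w, hv, hw, hwv, h5⟩ := h4
          have h6 : c x b' = c w b := congrArg Prod.fst h5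
          have h7 : c x' b' = c v b := congrArg Prod.snd h5
          have h8 : v = x := hinj b v x hv hx (h7.symm.trans h3.symm)
          rw [h8] at hwv
          rcases hwv.lt_or_eq with h9 | h9
          · have h10 := ih w h9 (lt_trans h9 hxb)
            have h11 := h10.2 hw
            exact absurd (hinj b' w x (h10.1.1 hw) hx' (h11.symm.trans h6.symm)) h9.ne
          · rw [h6, h9]
    have hb : P b' b := by
      rw [hP b' b]
      refine ⟨hbb', fun y hy hyb => ?_⟩
      have h1 := lemA y hy
      exact h1.2 (h1.1.2 hyb)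
    have h1 : (c b b', c b b') ∈ W b' := ⟨b, b, hb, hb, le_rfl, rfl⟩
    rw [← hW] at h1
    obtain ⟨x, _, hx, _, _, h2⟩ := h1
    have h3 : c b b' = c x b := congrArg Prod.snd h2
    have hxb : x < b := ((hP b x).1 hx).1
    have h4 := (lemA x hxb).2 hx
    exact htri x b b' hxb.ne hbb'.ne (hxb.trans hbb').ne h3.symm (h4.symm.trans h3.symm)
  have hWinj : Function.Injective W := by
    intro b b' h
    rcases lt_trichotomy b b' with hlt | heq | hlt
    · exact (key b b' hlt h).elim
    · exact heq
    · exact (key b' b hlt h.symm).elim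
  calc #B ≤ #(Set (A × A)) := Cardinal.mk_le_of_injective hWinj
    _ = 2 ^ #A := by
      rw [Cardinal.mk_set, Cardinal.mk_prod, Cardinal.lift_id, Cardinal.mul_eq_self hA]

end Pool.Agent.Lib.MP_cad5e4_lc
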