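import Mathlib

/-!
# A colouring of the pairs of a set of size `2 ^ κ` with `κ` colours, without monochromatic
triangles and with all finite extension properties
-/

open Cardinal Set

universe u

namespace Pool.Agent.Lib.MP_cad5e4_lc

/-- recursion on layers -/
theorem exists_rec {V : Type u} {K : Type u} [Nonempty K] (lay : V → ℕ)
    (R : (V → V → K) → V → V → K)
    (hR : ∀ c c' x y, (∀ p q, lay p < max (lay x) (lay y) → lay q < max (lay x) (lay y) →
      c p q = c' p q) → R c x y = R c' x y) :
    ∃ c : V → V → K, ∀ x y, c x y = R c x y := by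
  classical
  let cc : ℕ → V → V → K := fun n => Nat.rec (fun _ _ => Classical.arbitrary K)
    (fun _ c => R c) n
  have hcc : ∀ n, cc (n + 1) = R (cc n) := fun n => rfl
  have key : ∀ m x y, max (lay x) (lay y) = m → ∀ n, m < n → cc n x y = cc (m + 1) x y := by
    intro m
    induction m using Nat.strong_induction_on with
    | _ m ih =>
      intro x y hxy n hn
      obtain ⟨n, rfl⟩ : ∃ n', n = n' + 1 := ⟨n - 1, by omega⟩
      rw [hcc, hcc]
      refine hR _ _ x y fun p q hp hq => ?_
      rw [hxy] at hp hq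
      have hm : max (lay p) (lay q) < m := max_lt hp hq
      rw [ih _ hm p q rfl n (by omega), ih _ hm p q rfl m hm]
  refine ⟨fun x y => cc (max (lay x) (lay y) + 1) x y, fun x y => ?_⟩
  change R (cc (max (lay x) (lay y))) x y = _
  refine hR _ _ x y fun p q hp hq => ?_
  exact key _ p q rfl _ (max_lt hp hq)

section

variable {V : Type u} {A : Type u}

/-- validity of the prescription `G y` of the vertex `y` -/
def Valid (lay : V → ℕ) (G : V → Finset (V × (ℕ × A))) (c : V → V → ℕ × A) (y : V) : Prop :=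
  (∀ p ∈ G y, lay p.1 < lay y ∧ p.2.1 < lay y) ∧
  (∀ p ∈ G y, ∀ q ∈ G y, p.1 = q.1 → p.2 = q.2) ∧
  (∀ p ∈ G y, ∀ q ∈ G y, p.1 ≠ q.1 → p.2 = q.2 → c p.1 q.1 ≠ p.2)

open Classical in
/-- colour of the pair `x, y` where `y` is in a higher layer than `x` -/
noncomputable def rule (lay : V → ℕ) (G : V → Finset (V × (ℕ × A))) (D : V → V → A)
    (c : V → V → ℕ × A) (y x : V) : ℕ × A :=
  if h : Valid lay G c y ∧ ∃ k, (x, k) ∈ G y then h.2.choose else (lay y, D x y)

open Classical in
/-- the one-step operator -/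
noncomputable def opR (lay : V → ℕ) (G : V → Finset (V × (ℕ × A))) (D : V → V → A)
    (c : V → V → ℕ × A) (x y : V) : ℕ × A :=
  if lay x < lay y then rule lay G D c y x
  else if lay y < lay x then rule lay G D c x y
  else (lay x, D x y)

theorem valid_congr (lay : V → ℕ) (G : V → Finset (V × (ℕ × A))) {c c' : V → V → ℕ × A} {y : V}
    (h : ∀ p q, lay p < lay y → lay q < lay y → c p q = c' p q) :
    Valid lay G c y ↔ Valid lay G c' y := by
  unfold Valid
  constructor
  · rintro ⟨h1, h2, h3⟩
    refine ⟨h1, h2, fun p hp q hq hpq hk => ?_⟩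
    rw [← h _ _ (h1 p hp).1 (h1 q hq).1]
    exact h3 p hp q hq hpq hk
  · rintro ⟨h1, h2, h3⟩
    refine ⟨h1, h2, fun p hp q hq hpq hk => ?_⟩
    rw [h _ _ (h1 p hp).1 (h1 q hq).1]
    exact h3 p hp q hq hpq hk

theorem rule_congr (lay : V → ℕ) (G : V → Finset (V × (ℕ × A))) (D : V → V → A)
    {c c' : V → V → ℕ × A} {y : V}
    (h : ∀ p q, lay p < lay y → lay q < lay y → c p q = c' p q) (x : V) :
    rule lay G D c y x = rule lay G D c' y x := by
  unfold rule
  have h1 := valid_congr lay G h
  by_cases h2 : Valid lay G c y ∧ ∃ k, (x, k) ∈ G y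
  · rw [dif_pos h2, dif_pos ⟨h1.1 h2.1, h2.2⟩]
  · rw [dif_neg h2, dif_neg fun h3 => h2 ⟨h1.2 h3.1, h3.2⟩]

/-- The main recursive construction. -/
theorem exists_col [Nonempty A] (lay : V → ℕ) (G : V → Finset (V × (ℕ × A))) (D : V → V → A)
    (hD : ∀ x y, D x y = D y x)
    (hD3 : ∀ x y z, x ≠ y → y ≠ z → x ≠ z → D x y = D y z → D x z = D y z → False)
    (hG : ∀ F : Finset (V × (ℕ × A)), ∀ n, ∃ y, lay y = n ∧ G y = F) :
    ∃ c : V → V → ℕ × A, (∀ x y, c x y = c y x) ∧
      (∀ x y z, x ≠ y → y ≠ z → x ≠ z → c x y = c y z → c x z = c y z → False) ∧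
      (∀ (S : Finset V) (f : V → ℕ × A),
        (∀ x ∈ S, ∀ y ∈ S, x ≠ y → f x = f y → c x y ≠ f x) →
        ∃ y, y ∉ S ∧ ∀ x ∈ S, c y x = f x) := by
  classical
  obtain ⟨c, hc⟩ := exists_rec lay (opR lay G D) (by
    intro c c' x y h
    unfold opR
    split_ifs with h1 h2
    · exact rule_congr lay G D (fun p q hp hq => h p q (by omega) (by omega)) _
    · exact rule_congr lay G D (fun p q hp hq => h p q (by omega) (by omega)) _
    · rfl)
  have hsym : ∀ x y, c x y = c y x := by
    intro x y
    rw [hc x y, hc y x]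
    unfold opR
    rcases lt_trichotomy (lay x) (lay y) with h | h | h
    · rw [if_pos h, if_neg (by omega), if_pos h]
    · rw [if_neg (by omega), if_neg (by omega), if_neg (by omega), if_neg (by omega), h, hD]
    · rw [if_neg (by omega), if_pos h, if_pos h]
  -- description of the colour of a pair in increasing layers
  have hlt : ∀ x y, lay x < lay y → (Valid lay G c y ∧ (x, c x y) ∈ G y ∧ (c x y).1 < lay y) ∨
      c x y = (lay y, D x y) := by
    intro x y h
    have h1 : c x y = rule lay G D c y x := by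
      rw [hc x y]; unfold opR; rw [if_pos h]
    unfold rule at h1
    by_cases h2 : Valid lay G c y ∧ ∃ k, (x, k) ∈ G y
    · rw [dif_pos h2] at h1
      left
      have h3 := h2.2.choose_spec
      rw [← h1] at h3
      exact ⟨h2.1, h3, (h2.1.1 _ h3).2⟩
    · rw [dif_neg h2] at h1
      exact Or.inr h1
  have heq : ∀ x y, lay x = lay y → c x y = (lay y, D x y) := by
    intro x y h
    rw [hc x y]; unfold opR
    rw [if_neg (by omega), if_neg (by omega), h]
  -- x in a layer at most that of y
  have hle : ∀ x y, lay x ≤ lay y →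
      (lay x < lay y ∧ Valid lay G c y ∧ (x, c x y) ∈ G y ∧ (c x y).1 < lay y) ∨
      c x y = (lay y, D x y) := by
    intro x y h
    rcases h.lt_or_eq with h | h
    · rcases hlt x y h with h1 | h1
      · exact Or.inl ⟨h, h1⟩
      · exact Or.inr h1
    · exact Or.inr (heq x y h)
  -- the top vertex is `t`
  have htop : ∀ a b t, a ≠ b → b ≠ t → a ≠ t → lay a ≤ lay t → lay b ≤ lay t →
      c a b = c b t → c a t = c b t → False := by
    intro a b t hab hbt hat ha hb h1 h2
    rcases hle b t hb with ⟨h3, h4, h5, h6⟩ | h3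
    · rcases hle a t ha with ⟨h7, _, h8, _⟩ | h7
      · -- both from G t
        refine h4.2.2 _ h8 _ h5 hab h2 ?_
        rw [h1, h2]
      · rw [h2] at h7
        rw [h7] at h6
        exact lt_irrefl _ h6
    · have h4 : (c a t).1 = lay t := by rw [h2, h3]
      have h5 : c a t = (lay t, D a t) := by
        rcases hle a t ha with ⟨_, _, _, h5⟩ | h5
        · omega
        · exact h5
      have h6 : (c a b).1 = lay t := by rw [h1, h3]
      have h7 : c a b = (lay t, D a b) := by
        rcases le_total (lay a) (lay b) with h | h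
        · rcases hle a b h with ⟨_, _, _, h7⟩ | h7
          · omega
          · rw [h7] at h6
            simp only at h6
            rw [h7, h6]
        · have h8 := hsym a b
          rcases hle b a h with ⟨_, _, _, h7⟩ | h7
          · rw [← h8] at h7; omega
          · rw [h8, h7] at h6
            simp only at h6
            rw [h8, h7, h6, hD]
      have h8 : D a b = D b t := by
        rw [h7, h3] at h1
        exact congrArg Prod.snd h1
      have h9 : D a t = D b t := by
        rw [h5, h3] at h2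
        exact congrArg Prod.snd h2
      exact hD3 a b t hab hbt hat h8 h9
  refine ⟨c, hsym, ?_, ?_⟩
  · intro x y z hxy hyz hxz h1 h2
    by_cases hz : lay x ≤ lay z ∧ lay y ≤ lay z
    · exact htop x y z hxy hyz hxz hz.1 hz.2 h1 h2
    · by_cases hy : lay x ≤ lay y ∧ lay z ≤ lay y
      · refine htop x z y hxz hyz.symm hxy hy.1 hy.2 ?_ ?_
        · rw [h2, hsym y z]
        · rw [h1, hsym y z]
      · refine htop y z x hyz hxz.symm hxy.symm (by omega) (by omega) ?_ ?_
        · rw [hsym z x, h2]
        · rw [hsym y x, hsym z x, h1, h2]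
  · intro S f hf
    obtain ⟨y, hy1, hy2⟩ := hG (S.image fun s => (s, f s))
      ((S.sup lay) + (S.sup fun s => (f s).1) + 1)
    have hS1 : ∀ s ∈ S, lay s < lay y := by
      intro s hs
      have : lay s ≤ S.sup lay := Finset.le_sup hs
      omega
    have hS2 : ∀ s ∈ S, (f s).1 < lay y := by
      intro s hs
      have : (f s).1 ≤ S.sup fun s => (f s).1 := Finset.le_sup (f := fun s => (f s).1) hs
      omega
    have hval : Valid lay G c y := by
      refine ⟨?_, ?_, ?_⟩
      · intro p hp
        rw [hy2, Finset.mem_image] at hp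
        obtain ⟨s, hs, rfl⟩ := hp
        exact ⟨hS1 s hs, hS2 s hs⟩
      · intro p hp q hq h
        rw [hy2, Finset.mem_image] at hp hq
        obtain ⟨s, hs, rfl⟩ := hp
        obtain ⟨s', hs', rfl⟩ := hq
        simp only at h
        rw [h]
      · intro p hp q hq h h'
        rw [hy2, Finset.mem_image] at hp hq
        obtain ⟨s, hs, rfl⟩ := hp
        obtain ⟨s', hs', rfl⟩ := hq
        exact hf s hs s' hs' h h'
    refine ⟨y, fun h => lt_irrefl _ (hS1 y h), fun x hx => ?_⟩
    rw [hsym y x, hc x y]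
    unfold opR
    rw [if_pos (hS1 x hx)]
    unfold rule
    have hex : ∃ k, (x, k) ∈ G y := ⟨f x, by
      rw [hy2]; exact Finset.mem_image_of_mem _ hx⟩
    rw [dif_pos ⟨hval, hex⟩]
    have key : ∀ k, (x, k) ∈ G y → k = f x := by
      intro k hk
      rw [hy2, Finset.mem_image] at hk
      obtain ⟨s, _, h2⟩ := hk
      have h3 := congrArg Prod.fst h2
      have h4 := congrArg Prod.snd h2
      simp only at h3 h4
      rw [← h4, h3]
    exact key _ (show Valid lay G c y ∧ ∃ k, (x, k) ∈ G y from ⟨hval, hex⟩).2.choose_spec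

end

/-- **The colouring.** -/
theorem exists_coloring (A : Type u) [Infinite A] :
    ∃ (V : Type u) (c : V → V → A), #V = 2 ^ #A ∧ (∀ x y, c x y = c y x) ∧
      (∀ x y z, x ≠ y → y ≠ z → x ≠ z → c x y = c y z → c x z = c y z → False) ∧
      (∀ (S : Finset V) (f : V → A),
        (∀ x ∈ S, ∀ y ∈ S, x ≠ y → f x = f y → c x y ≠ f x) →
        ∃ y, y ∉ S ∧ ∀ x ∈ S, c y x = f x) := by
  classical
  have hA : ℵ₀ ≤ #A := Cardinal.aleph0_le_mk A
  have hU : #(A → Bool) = 2 ^ #A := by simp
  have hUinf : ℵ₀ ≤ #(A → Bool) := by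
    rw [hU]; exact hA.trans (Cardinal.cantor _).le
  have hV : #(ℕ × (A → Bool)) = 2 ^ #A := by
    rw [Cardinal.mk_prod]
    simp only [Cardinal.mk_nat, Cardinal.lift_aleph0, Cardinal.lift_uzero]
    rw [Cardinal.aleph0_mul_eq hUinf, hU]
  have hK : #(ℕ × A) = #A := by
    rw [Cardinal.mk_prod]
    simp only [Cardinal.mk_nat, Cardinal.lift_aleph0, Cardinal.lift_uzero]
    rw [Cardinal.aleph0_mul_eq hA]
  obtain ⟨eK⟩ := Cardinal.eq.1 hK
  obtain ⟨eV⟩ := Cardinal.eq.1 (hV.trans hU.symm)
  have hF : #(Finset ((ℕ × (A → Bool)) × (ℕ × A))) = #(A → Bool) := by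
    have : Infinite ((ℕ × (A → Bool)) × (ℕ × A)) := inferInstance
    rw [Cardinal.mk_finset_of_infinite, Cardinal.mk_prod, Cardinal.lift_id, Cardinal.lift_id, hV,
      hK, hU]
    rw [Cardinal.mul_eq_left (hA.trans (Cardinal.cantor _).le) (Cardinal.cantor _).le]
    exact (Cardinal.aleph0_pos.trans_le hA).ne'
  obtain ⟨eF⟩ := Cardinal.eq.1 hF
  let D : (ℕ × (A → Bool)) → (ℕ × (A → Bool)) → A := fun x y =>
    Classical.epsilon fun a => eV x a ≠ eV y a
  have hD : ∀ x y, D x y = D y x := by
    intro x y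
    simp only [D]
    congr 1
    funext a
    exact propext ne_comm
  have hD1 : ∀ x y, x ≠ y → eV x (D x y) ≠ eV y (D x y) := by
    intro x y h
    have : ∃ a, eV x a ≠ eV y a := by
      by_contra hcon
      push Not at hcon
      exact h (eV.injective (funext hcon))
    exact Classical.epsilon_spec this
  have hD3 : ∀ x y z, x ≠ y → y ≠ z → x ≠ z → D x y = D y z → D x z = D y z → False := by
    intro x y z hxy hyz hxz h1 h2
    have a1 := hD1 x y hxy
    have a2 := hD1 y z hyz
    have a3 := hD1 x z hxz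
    rw [h1] at a1
    rw [h2] at a3
    generalize D y z = d at a1 a2 a3
    revert a1 a2 a3
    cases eV x d <;> cases eV y d <;> cases eV z d <;> simp
  obtain ⟨c, hc1, hc2, hc3⟩ := exists_col (V := ℕ × (A → Bool)) (A := A) (fun x => x.1)
    (fun y => eF.symm y.2) D hD hD3 (fun F n => ⟨(n, eF F), rfl, by simp⟩)
  refine ⟨ℕ × (A → Bool), fun x y => eK (c x y), hV, fun x y => congrArg eK (hc1 x y), ?_, ?_⟩
  · intro x y z hxy hyz hxz h1 h2
    exact hc2 x y z hxy hyz hxz (eK.injective h1) (eK.injective h2)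
  · intro S f hf
    obtain ⟨y, hy1, hy2⟩ := hc3 S (fun x => eK.symm (f x)) (fun x hx y hy hxy h h' => by
      refine hf x hx y hy hxy (eK.symm.injective h) ?_
      change eK (c x y) = f x
      rw [h']; simp)
    refine ⟨y, hy1, fun x hx => ?_⟩
    change eK (c y x) = f x
    rw [hy2 x hx]; simp

end Pool.Agent.Lib.MP_cad5e4_lc
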