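import Mathlib

/-!
# Characterizable cardinals: definitions

`Fml L n` is the type of formulas of the infinitary logic `L_{ω₁,ω}` over the language `L`
whose free variables are among `x_0, …, x_{n-1}`.
-/

open FirstOrder Cardinal

universe u

namespace Pool.Agent.Lib.MP_cad5e4_lc

/-- Formulas of `L_{ω₁,ω}` with free variables among `x_0, …, x_{n-1}` (de Bruijn style:
the quantifier `all` binds the last variable `x_n` of its argument). -/
inductive Fml (L : FirstOrder.Language.{0, 0}) : ℕ → Type
  /-- equality of two terms -/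
  | eq {n : ℕ} (s t : L.Term (Fin n)) : Fml L n
  /-- a relation symbol applied to terms -/
  | rel {n k : ℕ} (R : L.Relations k) (ts : Fin k → L.Term (Fin n)) : Fml L n
  /-- negation -/
  | neg {n : ℕ} (φ : Fml L n) : Fml L n
  /-- the conjunction of a countable sequence of formulas -/
  | conj {n : ℕ} (φ : ℕ → Fml L n) : Fml L n
  /-- universal quantification over the last variable -/
  | all {n : ℕ} (φ : Fml L (n + 1)) : Fml L n

/-- Satisfaction of a formula of `L_{ω₁,ω}` in a structure under an assignment. -/
def Fml.Realize {L : FirstOrder.Language.{0, 0}} {M : Type u} [L.Structure M] :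
    {n : ℕ} → Fml L n → (Fin n → M) → Prop
  | _, .eq s t, v => s.realize v = t.realize v
  | _, .rel R ts, v => FirstOrder.Language.Structure.RelMap R fun i => (ts i).realize v
  | _, .neg φ, v => ¬ φ.Realize v
  | _, .conj φ, v => ∀ i, (φ i).Realize v
  | n, .all φ, v => ∀ a : M, φ.Realize (Fin.snoc v a : Fin (n + 1) → M)

/-- `M ⊨ φ` for a sentence `φ` of `L_{ω₁,ω}`. -/
def Models {L : FirstOrder.Language.{0, 0}} (M : Type u) [L.Structure M] (φ : Fml L 0) : Prop :=
  φ.Realize (Fin.elim0 : Fin 0 → M)

/-- A sentence is complete if it decides every sentence of `L_{ω₁,ω}` of its language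
(over nonempty structures). -/
def IsComplete {L : FirstOrder.Language.{0, 0}} (φ : Fml L 0) : Prop :=
  ∀ θ : Fml L 0,
    (∀ (M : Type u) [L.Structure M] [Nonempty M], Models M φ → Models M θ) ∨
    (∀ (M : Type u) [L.Structure M] [Nonempty M], Models M φ → ¬ Models M θ)

/-- `φ` characterizes the infinite cardinal `κ`: it has a model of every infinite cardinality
`≤ κ` and no model of cardinality `κ⁺`. -/
def Characterizes {L : FirstOrder.Language.{0, 0}} (φ : Fml L 0) (κ : Cardinal.{u}) : Prop :=
  ℵ₀ ≤ κ ∧
  (∀ c : Cardinal.{u}, ℵ₀ ≤ c → c ≤ κ →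
    ∃ (M : Type u) (_ : L.Structure M), #M = c ∧ Models M φ) ∧
  ¬ ∃ (M : Type u) (_ : L.Structure M), #M = Order.succ κ ∧ Models M φ

/-- `κ` is completely characterizable: some complete `L_{ω₁,ω}`-sentence in a countable
language characterizes it. -/
def CompletelyCharacterizable (κ : Cardinal.{u}) : Prop :=
  ∃ (L : FirstOrder.Language.{0, 0}) (φ : Fml L 0), Countable L.Symbols ∧
    IsComplete.{u} φ ∧ Characterizes φ κ

end Pool.Agent.Lib.MP_cad5e4_lc
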