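import Pool.Agent.Lib.MP_cad5e4_lc.Iso
import Pool.Agent.Lib.MP_cad5e4_lc.Combi

/-!
# A big model of the axioms
-/

open FirstOrder Cardinal Set

universe u

namespace Pool.Agent.Lib.MP_cad5e4_lc

open FirstOrder.Language (Term)

variable {L : FirstOrder.Language.{0, 0}} {φ : Fml L 0}

open Classical in
/-- the two-sorted structure -/
@[instance_reducible]
noncomputable def bigS (A V : Type u) [L.Structure A] (c : V → V → A) :
    (ext L).Structure (A ⊕ V) where
  funMap {k} F x :=
    if h : ∀ i, ∃ a, x i = Sum.inl a then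
      Sum.inl (FirstOrder.Language.Structure.funMap (L := L) (F : L.Functions k)
        fun i => (h i).choose)
    else if hk : 0 < k then x ⟨0, hk⟩
    else absurd (fun i : Fin k => absurd i.pos hk) h
  RelMap {k} R x :=
    match k, R, x with
    | _, Sum.inl R, x => ∃ y : Fin _ → A, (∀ i, x i = Sum.inl (y i)) ∧
        FirstOrder.Language.Structure.RelMap (L := L) R y
    | _, Sum.inr NewRel.U, x => ∃ a, x 0 = Sum.inl a
    | _, Sum.inr NewRel.C, x => ∃ v w, v ≠ w ∧ x 0 = Sum.inr v ∧ x 1 = Sum.inr w ∧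
        x 2 = Sum.inl (c v w)

section

variable (A V : Type u) [L.Structure A] (c : V → V → A)

theorem big_funMap {k : ℕ} (F : L.Functions k) (y : Fin k → A) :
    letI := bigS (L := L) A V c
    FirstOrder.Language.Structure.funMap (L := ext L) (F : (ext L).Functions k)
      (fun i => (Sum.inl (y i) : A ⊕ V)) = Sum.inl (FirstOrder.Language.Structure.funMap F y) := by
  have h : ∀ i, ∃ a, (Sum.inl (y i) : A ⊕ V) = Sum.inl a := fun i => ⟨y i, rfl⟩
  refine (dif_pos h).trans ?_
  congr 2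
  funext i
  exact (Sum.inl.inj (h i).choose_spec).symm

theorem big_PU (x : A ⊕ V) :
    letI := bigS (L := L) A V c
    PU L (A ⊕ V) x ↔ ∃ a, x = Sum.inl a := Iff.rfl

theorem big_PU_inl (a : A) :
    letI := bigS (L := L) A V c
    PU L (A ⊕ V) (Sum.inl a) := ⟨a, rfl⟩

theorem big_not_PU_inr (v : V) :
    letI := bigS (L := L) A V c
    ¬ PU L (A ⊕ V) (Sum.inr v) := by
  rintro ⟨a, h⟩
  cases h

theorem big_PC (x y z : A ⊕ V) :
    letI := bigS (L := L) A V c
    PC L (A ⊕ V) x y z ↔ ∃ v w, v ≠ w ∧ x = Sum.inr v ∧ y = Sum.inr w ∧ z = Sum.inl (c v w) :=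
  Iff.rfl

/-- the substructure of colours -/
def bigSub : @FirstOrder.Language.Substructure L (A ⊕ V)
    (@redS L (A ⊕ V) (bigS (L := L) A V c)) :=
  letI := bigS (L := L) A V c
  letI := redS L (A ⊕ V)
  { carrier := {x | PU L (A ⊕ V) x}
    fun_mem := fun {k} F x hx => by
      choose y hy using hx
      have h1 : x = fun i => Sum.inl (y i) := funext fun i => hy i
      rw [h1]
      exact ⟨_, big_funMap (L := L) A V c F y⟩ }

/-- `A` is isomorphic to the substructure of colours -/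
noncomputable def bigIso :
    letI := bigS (L := L) A V c
    letI := redS L (A ⊕ V)
    A ≃[L] (bigSub (L := L) A V c) :=
  letI := bigS (L := L) A V c
  letI := redS L (A ⊕ V)
  { toEquiv := Equiv.ofBijective (fun a => ⟨Sum.inl a, big_PU_inl (L := L) A V c a⟩) (by
      constructor
      · intro a b h
        exact Sum.inl.inj (congrArg Subtype.val h)
      · rintro ⟨x, a, hx⟩
        exact ⟨a, Subtype.ext hx.symm⟩)
    map_fun' := fun {k} F y => Subtype.ext (big_funMap A V c F y).symm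
    map_rel' := fun {k} R y => by
      constructor
      · rintro ⟨z, hz, hR⟩
        have : y = z := funext fun i => Sum.inl.inj (hz i)
        rw [this]; exact hR
      · intro h
        exact ⟨y, fun i => rfl, h⟩ }

end

/-- The structure satisfies the axioms. -/
theorem big_good (A V : Type u) [L.Structure A] [Infinite A] (hA : Models A φ)
    (c : V → V → A) (hs : ∀ x y, c x y = c y x)
    (htri : ∀ x y z, x ≠ y → y ≠ z → x ≠ z → c x y = c y z → c x z = c y z → False)
    (hext : ∀ (S : Finset V) (f : V → A),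
        (∀ x ∈ S, ∀ y ∈ S, x ≠ y → f x = f y → c x y ≠ f x) →
        ∃ y, y ∉ S ∧ ∀ x ∈ S, c y x = f x) :
    @Good L φ (A ⊕ V) (bigS (L := L) A V c) := by
  classical
  let _ := bigS (L := L) A V c
  have hPU := big_PU (L := L) A V c
  have hPC := big_PC (L := L) A V c
  have hnU : ∀ x : A ⊕ V, ¬ PU L (A ⊕ V) x → ∃ v, x = Sum.inr v := by
    rintro (a | v) h
    · exact absurd (big_PU_inl A V c a) h
    · exact ⟨v, rfl⟩
  refine ⟨?_, ?_, ?_, ?_, ?_, ?_, ?_, ?_, ?_, ?_, ?_⟩
  · exact ⟨Sum.inl (Classical.arbitrary A), big_PU_inl A V c _⟩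
  · intro k F x hx
    choose y hy using hx
    have h1 : x = fun i => Sum.inl (y i) := funext fun i => hy i
    rw [h1]
    exact ⟨_, big_funMap A V c F y⟩
  · intro k F x hx
    refine (dif_neg hx).trans ?_
    exact dif_pos (Nat.succ_pos k)
  · rintro k R x ⟨y, hy, _⟩ i
    exact ⟨y i, hy i⟩
  · rintro x y z ⟨v, w, hvw, rfl, rfl, rfl⟩
    exact ⟨big_not_PU_inr A V c v, big_not_PU_inr A V c w, big_PU_inl A V c _,
      fun h => hvw (Sum.inr.inj h)⟩
  · intro x y hx hy hxy
    obtain ⟨v, rfl⟩ := hnU x hx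
    obtain ⟨w, rfl⟩ := hnU y hy
    exact ⟨Sum.inl (c v w), v, w, fun h => hxy (by rw [h]), rfl, rfl, rfl⟩
  · intro x y z z' h h'
    rw [hPC] at h h'
    obtain ⟨v, w, _, rfl, rfl, rfl⟩ := h
    obtain ⟨v', w', _, h1, h2, h3⟩ := h'
    rw [h3, Sum.inr.inj h1, Sum.inr.inj h2]
  · intro x y z h
    rw [hPC] at h ⊢
    obtain ⟨v, w, hvw, rfl, rfl, rfl⟩ := h
    exact ⟨w, v, hvw.symm, rfl, rfl, by rw [hs]⟩
  · intro x y z w h h' h''
    rw [hPC] at h h' h''
    obtain ⟨a, b, hab, rfl, rfl, h1⟩ := h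
    obtain ⟨b', d, hbd, h2, rfl, h3⟩ := h'
    obtain ⟨a', d', had, h4, h5, h6⟩ := h''
    obtain rfl := Sum.inr.inj h2
    obtain rfl := Sum.inr.inj h4
    obtain rfl := Sum.inr.inj h5
    rw [h1] at h3 h6
    have e1 := Sum.inl.inj h3
    have e2 := Sum.inl.inj h6
    exact htri a b d hab hbd had e1 (e2.symm.trans e1)
  · intro k x a h1 h2 h3
    let S : Finset V := (Finset.univ.image x).preimage Sum.inr (Sum.inr_injective.injOn)
    have hS : ∀ v, v ∈ S ↔ ∃ i, x i = Sum.inr v := by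
      intro v
      simp [S]
    -- prescribed colours
    let f : V → A := fun v =>
      if h : ∃ i b, x i = Sum.inr v ∧ a i = Sum.inl b then h.choose_spec.choose
      else Classical.arbitrary A
    have hf : ∀ i v, x i = Sum.inr v → a i = Sum.inl (f v) := by
      intro i v hi
      have hiU : ¬ PU L (A ⊕ V) (x i) := by rw [hi]; exact big_not_PU_inr A V c v
      obtain ⟨b, hb⟩ := h1 i hiU
      have h : ∃ i b, x i = Sum.inr v ∧ a i = Sum.inl b := ⟨i, b, hi, hb⟩
      have hfv : f v = h.choose_spec.choose := dif_pos h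
      obtain ⟨h4, h5⟩ := h.choose_spec.choose_spec
      rw [hfv, ← h5]
      exact h2 i _ hiU (by rw [hi, h4])
    obtain ⟨y, hy1, hy2⟩ := hext S f (by
      intro v hv w hw hvw hfvw hcon
      obtain ⟨i, hi⟩ := (hS v).1 hv
      obtain ⟨j, hj⟩ := (hS w).1 hw
      have hiU : ¬ PU L (A ⊕ V) (x i) := by rw [hi]; exact big_not_PU_inr A V c v
      have hjU : ¬ PU L (A ⊕ V) (x j) := by rw [hj]; exact big_not_PU_inr A V c w
      refine h3 i j hiU hjU ((hPC _ _ _).2 ⟨v, w, hvw, hi, hj, ?_⟩) ?_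
      · rw [hf i v hi, hcon]
      · rw [hf i v hi, hf j w hj, hfvw])
    refine ⟨Sum.inr y, big_not_PU_inr A V c y, fun i hi => ?_⟩
    obtain ⟨v, hv⟩ := hnU _ hi
    have hvS : v ∈ S := (hS v).2 ⟨i, hv⟩
    refine (hPC _ _ _).2 ⟨y, v, fun h => hy1 (by rw [h]; exact hvS), rfl, hv, ?_⟩
    rw [hf i v hv, hy2 v hvS]
  · let _ := redS L (A ⊕ V)
    have h1 := realize_relat (A ⊕ V) φ (bigSub (L := L) A V c) (fun x => Iff.rfl) Fin.elim0
    rw [Models]
    rw [show (fun i : Fin 0 => ((Fin.elim0 i : bigSub (L := L) A V c) : A ⊕ V)) = Fin.elim0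
      from Subsingleton.elim _ _] at h1
    rw [h1]
    exact (models_equiv (bigIso A V c) φ).1 hA

end Pool.Agent.Lib.MP_cad5e4_lc
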