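import Pool.Agent.Lib.MP_cad5e4_lc.Sent

/-!
# Countable models of the axioms `Good` are isomorphic
-/

open FirstOrder Cardinal Set

universe u

namespace Pool.Agent.Lib.MP_cad5e4_lc

open FirstOrder.Language (Term)

variable {L : FirstOrder.Language.{0, 0}} {φ : Fml L 0}

/-- the substructure of colours -/
def subU (M : Type u) [(ext L).Structure M] (h : Good φ M) :
    @FirstOrder.Language.Substructure L M (redS L M) :=
  letI := redS L M
  { carrier := {x | PU L M x}
    fun_mem := fun {k} F x hx => h.funU k F x hx }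

theorem mem_subU {M : Type u} [(ext L).Structure M] {h : Good φ M} {x : M} :
    x ∈ subU M h ↔ PU L M x := Iff.rfl

theorem subU_models {M : Type u} [(ext L).Structure M] (h : Good φ M) :
    letI := redS L M
    Models (subU M h) φ := by
  let _ := redS L M
  have h1 := realize_relat M φ (subU M h) (fun x => Iff.rfl) Fin.elim0
  have h2 := h.mod
  rw [Models] at h2 ⊢
  rw [← h1]
  rwa [show (fun i : Fin 0 => ((Fin.elim0 i : subU M h) : M)) = Fin.elim0
    from Subsingleton.elim _ _]

theorem subU_nonempty {M : Type u} [(ext L).Structure M] (h : Good φ M) :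
    Nonempty (subU M h) := by
  obtain ⟨x, hx⟩ := h.neU
  exact ⟨⟨x, hx⟩⟩

section

variable {M N : Type u} [(ext L).Structure M] [(ext L).Structure N] (hM : Good φ M)
  (hN : Good φ N) (i : subU M hM ≃ subU N hN)

/-- the pairwise condition of the back-and-forth system -/
def Q (p q : M × N) : Prop :=
  (PU L M p.1 ↔ PU L N p.2) ∧ (PU L M q.1 ↔ PU L N q.2) ∧
  (∀ h : PU L M p.1, p.2 = i ⟨p.1, h⟩) ∧ (p.1 = q.1 ↔ p.2 = q.2) ∧
  (¬ PU L M p.1 → ¬ PU L M q.1 → ∀ c : subU M hM, PC L M p.1 q.1 c ↔ PC L N p.2 q.2 (i c))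

/-- the back-and-forth system -/
def EE (n : ℕ) (v : Fin n → M) (w : Fin n → N) : Prop :=
  ∀ j k, Q hM hN i (v j, w j) (v k, w k)

theorem Q_swap {p q : M × N} (h : Q hM hN i p q) : Q hN hM i.symm p.swap q.swap := by
  obtain ⟨h1, h1', h2, h3, h4⟩ := h
  refine ⟨h1.symm, h1'.symm, fun h => ?_, h3.symm, fun a b c => ?_⟩
  · have h5 := h2 (h1.2 h)
    have h6 : (⟨p.2, h⟩ : subU N hN) = i ⟨p.1, h1.2 h⟩ := Subtype.ext h5
    simp only [Prod.fst_swap, Prod.snd_swap, h6, Equiv.symm_apply_apply]
  · have := h4 (fun h => a (h1.1 h)) (fun h => b (h1'.1 h)) (i.symm c)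
    rw [Equiv.apply_symm_apply] at this
    exact this.symm

theorem EE_swap {n : ℕ} {v : Fin n → M} {w : Fin n → N} (h : EE hM hN i n v w) :
    EE hN hM i.symm n w v := fun j k => Q_swap hM hN i (h j k)

theorem EE_snoc {n : ℕ} {v : Fin n → M} {w : Fin n → N} (h : EE hM hN i n v w) {a : M} {b : N}
    (h1 : Q hM hN i (a, b) (a, b)) (h2 : ∀ j, Q hM hN i (v j, w j) (a, b))
    (h3 : ∀ j, Q hM hN i (a, b) (v j, w j)) :
    EE hM hN i (n + 1) (Fin.snoc v a) (Fin.snoc w b) := by
  intro j k
  refine Fin.lastCases ?_ (fun j => ?_) j <;> refine Fin.lastCases ?_ (fun k => ?_) k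
  · simpa using h1
  · simpa using h3 k
  · simpa using h2 j
  · simpa using h j k

theorem forth {n : ℕ} {v : Fin n → M} {w : Fin n → N} (h : EE hM hN i n v w) (a : M) :
    ∃ b, EE hM hN i (n + 1) (Fin.snoc v a) (Fin.snoc w b) := by
  classical
  by_cases hav : ∃ j, v j = a
  · obtain ⟨j, rfl⟩ := hav
    exact ⟨w j, EE_snoc hM hN i h (h j j) (fun k => h k j) (fun k => h j k)⟩
  push Not at hav
  by_cases ha : PU L M a
  · -- a colour
    have hb : PU L N (i ⟨a, ha⟩) := (i ⟨a, ha⟩).2
    have hne : ∀ j, w j ≠ i ⟨a, ha⟩ := by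
      intro j hj
      have h1 : PU L M (v j) := (h j j).1.2 (by
        change PU L N (w j)
        rw [hj]; exact hb)
      have h2 := (h j j).2.2.1 h1
      simp only at h2
      rw [hj] at h2
      have h3 := i.injective (Subtype.ext h2)
      exact hav j (congrArg Subtype.val h3).symm
    refine ⟨i ⟨a, ha⟩, EE_snoc hM hN i h ?_ ?_ ?_⟩
    · exact ⟨⟨fun _ => hb, fun _ => ha⟩, ⟨fun _ => hb, fun _ => ha⟩, fun _ => rfl,
        ⟨fun _ => rfl, fun _ => rfl⟩, fun h => absurd ha h⟩
    · intro j
      exact ⟨(h j j).1, ⟨fun _ => hb, fun _ => ha⟩, (h j j).2.2.1,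
        ⟨fun h => absurd h (hav j), fun h => absurd h (hne j)⟩, fun _ h => absurd ha h⟩
    · intro j
      exact ⟨⟨fun _ => hb, fun _ => ha⟩, (h j j).1, fun _ => rfl,
        ⟨fun h => absurd h.symm (hav j), fun h => absurd h.symm (hne j)⟩, fun h => absurd ha h⟩
  · -- a vertex
    have h1 : ∀ j, ∃ z : subU M hM, ¬ PU L M (v j) → PC L M a (v j) z := by
      intro j
      by_cases hj : PU L M (v j)
      · obtain ⟨z⟩ := subU_nonempty hM
        exact ⟨z, fun h => absurd hj h⟩
      · obtain ⟨z, hz⟩ := hM.Cex a (v j) ha hj (hav j).symm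
        exact ⟨⟨z, (hM.Cdom _ _ _ hz).2.2.1⟩, fun _ => hz⟩
    choose z hz using h1
    have hU : ∀ j, PU L M (v j) ↔ PU L N (w j) := fun j => (h j j).1
    obtain ⟨b, hb1, hb2⟩ := hN.Cext n w (fun j => i (z j)) (fun j _ => (i (z j)).2)
      (by
        intro j k hj hjk
        have h2 : v j = v k := (h j k).2.2.2.1.2 hjk
        have h3 := hz j (fun h => hj ((hU j).1 h))
        have h4 := hz k (by rw [← h2]; exact fun h => hj ((hU j).1 h))
        rw [← h2] at h4
        have h5 : z j = z k := Subtype.ext (hM.Cun _ _ _ _ h3 h4)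
        simp only [h5])
      (by
        intro j k hj hk hjk heq
        have hj' : ¬ PU L M (v j) := fun h => hj ((hU j).1 h)
        have hk' : ¬ PU L M (v k) := fun h => hk ((hU k).1 h)
        have h5 : z j = z k := i.injective (Subtype.ext heq)
        have h6 : PC L M (v j) (v k) (z j) := ((h j k).2.2.2.2 hj' hk' (z j)).2 hjk
        have h7 := hz j hj'
        have h8 := hz k hk'
        rw [← h5] at h8
        exact hM.Ctri _ _ _ _ h7 h6 h8)
    have hnab : ∀ c, ¬ PC L M a a c := fun c hc => (hM.Cdom _ _ _ hc).2.2.2 rfl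
    have hnbb : ∀ c, ¬ PC L N b b c := fun c hc => (hN.Cdom _ _ _ hc).2.2.2 rfl
    have hne : ∀ j, w j ≠ b := by
      intro j hj
      have h2 : ¬ PU L N (w j) := by rw [hj]; exact hb1
      have h3 := hb2 j h2
      exact (hN.Cdom _ _ _ h3).2.2.2 hj.symm
    have hcol : ∀ j, ¬ PU L M (v j) → ∀ c : subU M hM,
        (PC L M a (v j) c ↔ PC L N b (w j) (i c)) := by
      intro j hj c
      have h3 := hz j hj
      have h4 := hb2 j (fun h => hj ((hU j).2 h))
      constructor
      · intro h5
        have h6 : z j = c := Subtype.ext (hM.Cun _ _ _ _ h3 h5)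
        rw [← h6]; exact h4
      · intro h5
        have h6 : i (z j) = i c := Subtype.ext (hN.Cun _ _ _ _ h4 h5)
        rw [← i.injective h6]; exact h3
    refine ⟨b, EE_snoc hM hN i h ?_ ?_ ?_⟩
    · exact ⟨⟨fun h => absurd h ha, fun h => absurd h hb1⟩,
        ⟨fun h => absurd h ha, fun h => absurd h hb1⟩, fun h => absurd h ha,
        ⟨fun _ => rfl, fun _ => rfl⟩, fun _ _ c =>
          ⟨fun h => absurd h (hnab _), fun h => absurd h (hnbb _)⟩⟩
    · intro j
      refine ⟨(h j j).1, ⟨fun h => absurd h ha, fun h => absurd h hb1⟩, (h j j).2.2.1,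
        ⟨fun h => absurd h (hav j), fun h => absurd h (hne j)⟩, fun hj _ c => ?_⟩
      constructor
      · intro h5
        exact hN.Csym _ _ _ ((hcol j hj c).1 (hM.Csym _ _ _ h5))
      · intro h5
        exact hM.Csym _ _ _ ((hcol j hj c).2 (hN.Csym _ _ _ h5))
    · intro j
      exact ⟨⟨fun h => absurd h ha, fun h => absurd h hb1⟩, (h j j).1, fun h => absurd h ha,
        ⟨fun h => absurd h.symm (hav j), fun h => absurd h.symm (hne j)⟩,
        fun _ hj c => hcol j hj c⟩

end

/-- Countable good structures are isomorphic. -/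
theorem good_iso (hφ : IsComplete.{u} φ) {M N : Type u} [(ext L).Structure M]
    [(ext L).Structure N] [Countable M] [Countable N] [Nonempty M] [Nonempty N]
    (hM : Good φ M) (hN : Good φ N) : Nonempty (M ≃[ext L] N) := by
  let i1 := redS L M
  let i2 := redS L N
  have n1 := subU_nonempty hM
  have n2 := subU_nonempty hN
  obtain ⟨i⟩ := countable_iso hφ (subU_models hM) (subU_models hN)
  obtain ⟨f, g, hf, hg, hE⟩ := exists_seq (EE hM hN i.toEquiv) (fun j => j.elim0)
    (fun n v w h a => forth hM hN i.toEquiv h a)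
    (fun n v w h b => by
      obtain ⟨a, ha⟩ := forth hN hM i.toEquiv.symm (EE_swap hM hN i.toEquiv h) b
      exact ⟨a, EE_swap hN hM i.toEquiv.symm ha⟩)
  have hQ : ∀ j k, Q hM hN i.toEquiv (f j, g j) (f k, g k) := fun j k =>
    hE (max j k + 1) ⟨j, by omega⟩ ⟨k, by omega⟩
  have hinj : ∀ j k, f j = f k ↔ g j = g k := fun j k => (hQ j k).2.2.2.1
  choose fi hfi using hf
  choose gi hgi using hg
  let e : M ≃ N :=
    { toFun := fun a => g (fi a)
      invFun := fun b => f (gi b)
      left_inv := fun a => by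
        have h1 : g (gi (g (fi a))) = g (fi a) := hgi _
        rw [← hinj, hfi] at h1
        exact h1
      right_inv := fun b => by
        have h1 : f (fi (f (gi b))) = f (gi b) := hfi _
        rw [hinj, hgi] at h1
        exact h1 }
  have hQe : ∀ x y, Q hM hN i.toEquiv (x, e x) (y, e y) := by
    intro x y
    have := hQ (fi x) (fi y)
    rw [hfi, hfi] at this
    exact this
  have hU : ∀ x, PU L M x ↔ PU L N (e x) := fun x => (hQe x x).1
  have hUi : ∀ x (h : PU L M x), e x = i.toEquiv ⟨x, h⟩ := fun x h => (hQe x x).2.2.1 h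
  refine ⟨{ toEquiv := e, map_fun' := ?_, map_rel' := ?_ }⟩
  · intro k F x
    change e (FirstOrder.Language.Structure.funMap F x) =
      FirstOrder.Language.Structure.funMap F (fun j => e (x j))
    by_cases hx : ∀ j, PU L M (x j)
    · have h1 := hUi _ (hM.funU k F x hx)
      rw [h1]
      have h2 := i.map_fun' F (fun j => (⟨x j, hx j⟩ : subU M hM))
      have h3 := congrArg Subtype.val h2
      refine Eq.trans h3 ?_
      change FirstOrder.Language.Structure.funMap (L := ext L) (F : (ext L).Functions k)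
        (fun j => ((i.toEquiv ⟨x j, hx j⟩ : subU N hN) : N)) = _
      congr 1
      funext j
      exact (hUi _ _).symm
    · cases k with
      | zero => exact absurd (fun j => Fin.elim0 j) hx
      | succ k =>
        have hx' : ¬ ∀ j, PU L N (e (x j)) := fun h => hx fun j => (hU _).2 (h j)
        have h1 := hM.funJ k F x hx
        have h2 := hN.funJ k F (fun j => e (x j)) hx'
        refine (congrArg e h1).trans h2.symm
  · intro k R x
    change FirstOrder.Language.Structure.RelMap R (fun j => e (x j)) ↔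
      FirstOrder.Language.Structure.RelMap R x
    rcases R with R | R
    · by_cases hx : ∀ j, PU L M (x j)
      · have h2 := i.map_rel' R (fun j => (⟨x j, hx j⟩ : subU M hM))
        have h3 : (fun j => e (x j)) = fun j => ((i.toEquiv ⟨x j, hx j⟩ : subU N hN) : N) :=
          funext fun j => hUi _ _
        rw [h3]
        exact h2
      · constructor
        · intro h
          exact absurd (fun j => (hU _).2 (hN.relU k R _ h j)) hx
        · intro h
          exact absurd (hM.relU k R _ h) hx
    · cases R with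
      | U =>
        have h1 : x = fun _ => x 0 := by funext j; rw [Subsingleton.elim j 0]
        rw [h1]
        exact (hU (x 0)).symm
      | C =>
        have h1 : x = ![x 0, x 1, x 2] := by funext j; fin_cases j <;> rfl
        have h2 : (fun j => e (x j)) = ![e (x 0), e (x 1), e (x 2)] := by
          funext j; fin_cases j <;> rfl
        rw [h2]
        conv_rhs => rw [h1]
        change PC L N (e (x 0)) (e (x 1)) (e (x 2)) ↔ PC L M (x 0) (x 1) (x 2)
        constructor
        · intro h
          obtain ⟨a1, a2, a3, _⟩ := hN.Cdom _ _ _ h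
          have a3' := (hU _).2 a3
          rw [hUi _ a3'] at h
          exact ((hQe (x 0) (x 1)).2.2.2.2 (fun h => a1 ((hU _).1 h)) (fun h => a2 ((hU _).1 h))
            ⟨x 2, a3'⟩).2 h
        · intro h
          obtain ⟨a1, a2, a3, _⟩ := hM.Cdom _ _ _ h
          have := ((hQe (x 0) (x 1)).2.2.2.2 a1 a2 ⟨x 2, a3⟩).1 h
          rw [hUi _ a3]
          exact this

end Pool.Agent.Lib.MP_cad5e4_lc
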