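import Pool.Agent.Lib.MP_cad5e4_lc.Defs

/-!
# Downward Löwenheim–Skolem for `L_{ω₁,ω}` and invariance under isomorphism
-/

open FirstOrder Cardinal Set

universe u

namespace Pool.Agent.Lib.MP_cad5e4_lc

variable {L : FirstOrder.Language.{0, 0}}

theorem snoc_coe {M : Type u} {S : Set M} {n : ℕ} (v : Fin n → S) (a : S) :
    (fun j => (((Fin.snoc v a : Fin (n + 1) → S) j : S) : M)) =
      (Fin.snoc (fun j => (v j : M)) (a : M) : Fin (n + 1) → M) := by
  funext j
  refine Fin.lastCases ?_ (fun i => ?_) j <;> simp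

/-- closure of a set under one finitary function -/
def ClosedFun {M : Type u} (S : Set M) (G : Σ k : ℕ, ((Fin k → M) → M)) : Prop :=
  ∀ v : Fin G.1 → M, (∀ j, v j ∈ S) → G.2 v ∈ S

/-- A countable family of functions such that every substructure closed under it is elementary
for `φ`. -/
theorem exists_skolem (M : Type u) [L.Structure M] [Nonempty M] {n : ℕ} (φ : Fml L n) :
    ∃ F : ℕ → Σ k : ℕ, ((Fin k → M) → M), ∀ S : L.Substructure M,
      (∀ i, ClosedFun (S : Set M) (F i)) →
      ∀ v : Fin n → S, (φ.Realize (fun j => (v j : M)) ↔ φ.Realize v) := by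
  classical
  induction φ with
  | @eq n s t =>
    refine ⟨fun _ => ⟨0, fun _ => Classical.arbitrary M⟩, fun S _ v => ?_⟩
    have h1 := FirstOrder.Language.realize_term_substructure v s
    have h2 := FirstOrder.Language.realize_term_substructure v t
    simp only [Fml.Realize]
    rw [show (fun j => (v j : M)) = Subtype.val ∘ v from rfl, h1, h2]
    exact Subtype.coe_inj
  | @rel n k R ts =>
    refine ⟨fun _ => ⟨0, fun _ => Classical.arbitrary M⟩, fun S _ v => ?_⟩
    have h1 := fun i => FirstOrder.Language.realize_term_substructure v (ts i)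
    simp only [Fml.Realize]
    rw [show (fun j => (v j : M)) = Subtype.val ∘ v from rfl]
    simp only [h1]
    rfl
  | neg φ ih =>
    obtain ⟨F, hF⟩ := ih
    exact ⟨F, fun S hS v => not_congr (hF S hS v)⟩
  | conj φ ih =>
    choose F hF using ih
    refine ⟨fun m => F m.unpair.1 m.unpair.2, fun S hS v => ?_⟩
    refine forall_congr' fun i => hF i S (fun j => ?_) v
    have := hS (Nat.pair i j)
    simpa only [Nat.unpair_pair] using this
  | @all n φ ih =>
    obtain ⟨F, hF⟩ := ih
    let sk : (Fin n → M) → M := fun v =>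
      if h : ∃ a : M, ¬ φ.Realize (Fin.snoc v a : Fin (n + 1) → M) then h.choose
      else Classical.arbitrary M
    refine ⟨fun m => Nat.casesOn m ⟨n, sk⟩ F, fun S hS v => ?_⟩
    have hF' := hF S (fun i => hS (i + 1))
    have hsk := hS 0
    simp only [ClosedFun] at hsk
    constructor
    · intro h a
      have := h (a : M)
      rw [← hF' (Fin.snoc v a), snoc_coe]
      exact this
    · intro h
      by_contra hcon
      simp only [Fml.Realize, not_forall] at hcon
      have hs := hsk (fun j => (v j : M)) (fun j => (v j).2)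
      have hs2 : ¬ φ.Realize (Fin.snoc (fun j => (v j : M)) (sk fun j => (v j : M)) :
          Fin (n + 1) → M) := by
        simp only [sk, dif_pos hcon]
        exact hcon.choose_spec
      apply hs2
      have := (hF' (Fin.snoc v ⟨_, hs⟩)).2 (h ⟨_, hs⟩)
      rw [snoc_coe] at this
      exact this

/-- auxiliary language of Skolem functions -/
def skLang {M : Type u} (F : ℕ → Σ k : ℕ, ((Fin k → M) → M)) : FirstOrder.Language.{0, 0} :=
  ⟨fun k => {i : ℕ // (F i).1 = k}, fun _ => Empty⟩

/-- the Skolem structure -/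
@[instance_reducible]
def skStruct {M : Type u} (F : ℕ → Σ k : ℕ, ((Fin k → M) → M)) : (skLang F).Structure M where
  funMap {_} f v := (F f.1).2 fun j => v (Fin.cast f.2 j)
  RelMap {_} r _ := nomatch r

/-- **Downward Löwenheim–Skolem** for a single formula of `L_{ω₁,ω}`. -/
theorem exists_small (hL : Countable L.Symbols) (M : Type u) [L.Structure M] [Nonempty M]
    {n : ℕ} (φ : Fml L n) (X : Set M) :
    ∃ S : L.Substructure M, X ⊆ S ∧ #S ≤ max ℵ₀ #X ∧ Nonempty S ∧
      ∀ v : Fin n → S, (φ.Realize (fun j => (v j : M)) ↔ φ.Realize v) := by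
  obtain ⟨F, hF⟩ := exists_skolem M φ
  let x0 : M := Classical.arbitrary M
  let _ := skStruct F
  have : Countable (Σ l, (L.sum (skLang F)).Functions l) := by
    have : Countable (Σ l, L.Functions l) := by
      have := hL
      exact Function.Injective.countable (β := L.Symbols) (f := Sum.inl) Sum.inl_injective
    have : Countable (Σ l, (skLang F).Functions l) := by
      refine Function.Injective.countable (β := ℕ) (f := fun x => x.2.1) ?_
      rintro ⟨k, i, rfl⟩ ⟨k', i', rfl⟩ h
      simp only at h
      subst h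
      rfl
    have : Function.Injective (fun x : Σ l, (L.sum (skLang F)).Functions l =>
        (match x with
        | ⟨l, Sum.inl f⟩ => Sum.inl ⟨l, f⟩
        | ⟨l, Sum.inr f⟩ => Sum.inr ⟨l, f⟩ :
          (Σ l, L.Functions l) ⊕ (Σ l, (skLang F).Functions l))) := by
      rintro ⟨l, f | f⟩ ⟨l', f' | f'⟩ h
      · simp only [Sum.inl.injEq, Sigma.mk.injEq] at h
        obtain ⟨rfl, h⟩ := h
        rw [eq_of_heq h]
      · simp at h
      · simp at h
      · simp only [Sum.inr.injEq, Sigma.mk.injEq] at h
        obtain ⟨rfl, h⟩ := h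
        rw [eq_of_heq h]
    exact this.countable
  let T := FirstOrder.Language.Substructure.closure (L.sum (skLang F)) (insert x0 X)
  let S : L.Substructure M :=
    (FirstOrder.Language.LHom.sumInl : L →ᴸ L.sum (skLang F)).substructureReduct T
  have hXT : insert x0 X ⊆ (T : Set M) := FirstOrder.Language.Substructure.subset_closure
  refine ⟨S, fun x hx => hXT (Set.mem_insert_of_mem _ hx), ?_, ⟨x0, hXT (Set.mem_insert _ _)⟩,
    fun v => ?_⟩
  · have h := FirstOrder.Language.Substructure.lift_card_closure_le
      (L := L.sum (skLang F)) (s := insert x0 X)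
    have h2 : #(Σ l, (L.sum (skLang F)).Functions l) ≤ ℵ₀ := Cardinal.mk_le_aleph0
    have h3 : #(insert x0 X : Set M) ≤ #X + 1 := Cardinal.mk_insert_le
    have h4 : Cardinal.lift.{u} #(Σ l, (L.sum (skLang F)).Functions l) ≤ ℵ₀ := by
      rw [Cardinal.lift_le_aleph0]; exact h2
    simp only [Cardinal.lift_id'] at h
    have h5 : #(insert x0 X : Set M) + Cardinal.lift.{u} #(Σ l, (L.sum (skLang F)).Functions l)
        ≤ max ℵ₀ #X := by
      refine (add_le_add h3 h4).trans ?_
      have h6 : #X ≤ max ℵ₀ #X := le_max_right _ _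
      have h7 : (1 : Cardinal) ≤ max ℵ₀ #X := (Cardinal.one_le_aleph0).trans (le_max_left _ _)
      have h8 : ℵ₀ ≤ max ℵ₀ #X := le_max_left _ _
      calc #X + 1 + ℵ₀ ≤ max ℵ₀ #X + max ℵ₀ #X + max ℵ₀ #X := by gcongr
        _ = max ℵ₀ #X := by
          rw [Cardinal.add_eq_self h8, Cardinal.add_eq_self h8]
    exact h.trans (max_le (le_max_left _ _) h5)
  · refine hF S (fun i w hw => ?_) v
    have := T.fun_mem (Sum.inr ⟨i, rfl⟩ : (L.sum (skLang F)).Functions (F i).1) w hw
    exact this

/-- Downward Löwenheim–Skolem for sentences. -/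
theorem exists_small_models (hL : Countable L.Symbols) (M : Type u) [L.Structure M] [Nonempty M]
    (φ : Fml L 0) (X : Set M) :
    ∃ S : L.Substructure M, X ⊆ S ∧ #S ≤ max ℵ₀ #X ∧ Nonempty S ∧
      (Models S φ ↔ Models M φ) := by
  obtain ⟨S, h1, h2, h3, h4⟩ := exists_small hL M φ X
  refine ⟨S, h1, h2, h3, ?_⟩
  have := h4 Fin.elim0
  rw [Models, Models, ← this]
  rw [show (fun j : Fin 0 => ((Fin.elim0 j : S) : M)) = Fin.elim0 from Subsingleton.elim _ _]

theorem snoc_comp {M N : Type*} (f : M → N) {n : ℕ} (v : Fin n → M) (a : M) :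
    (f ∘ (Fin.snoc v a : Fin (n + 1) → M)) = (Fin.snoc (f ∘ v) (f a) : Fin (n + 1) → N) := by
  funext j
  refine Fin.lastCases ?_ (fun i => ?_) j <;> simp

/-- Satisfaction is invariant under isomorphisms. -/
theorem realize_equiv {M N : Type u} [L.Structure M] [L.Structure N] (e : M ≃[L] N) {n : ℕ}
    (φ : Fml L n) (v : Fin n → M) : φ.Realize v ↔ φ.Realize (e ∘ v) := by
  induction φ with
  | eq s t =>
    simp only [Fml.Realize, FirstOrder.Language.HomClass.realize_term]
    exact (EmbeddingLike.apply_eq_iff_eq e).symm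
  | rel R ts =>
    simp only [Fml.Realize, FirstOrder.Language.HomClass.realize_term]
    exact (FirstOrder.Language.StrongHomClass.map_rel e R _).symm
  | neg φ ih => exact not_congr (ih v)
  | conj φ ih => exact forall_congr' fun i => ih i v
  | @all n φ ih =>
    simp only [Fml.Realize]
    constructor
    · intro h b
      have := (ih _).1 (h (e.symm b))
      rw [snoc_comp] at this
      simpa using this
    · intro h a
      rw [ih, snoc_comp]
      exact h (e a)

theorem models_equiv {M N : Type u} [L.Structure M] [L.Structure N] (e : M ≃[L] N)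
    (φ : Fml L 0) : Models M φ ↔ Models N φ := by
  rw [Models, realize_equiv e, Models]
  rw [show (e ∘ (Fin.elim0 : Fin 0 → M)) = Fin.elim0 from Subsingleton.elim _ _]

end Pool.Agent.Lib.MP_cad5e4_lc
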