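import Pool.Agent.Lib.MP_cad5e4_lc.Sent

/-!
# The axioms `Good` are expressed by one sentence
-/

open FirstOrder Cardinal Set

universe u

namespace Pool.Agent.Lib.MP_cad5e4_lc

open FirstOrder.Language (Term)

variable {L : FirstOrder.Language.{0, 0}}

theorem dfnU {n : ℕ} (t : (ext L).Term (Fin n)) :
    Dfn.{u} (ext L) n (fun M _ v => PU L M (t.realize v)) :=
  (Dfn.relT (Sum.inr NewRel.U : (ext L).Relations 1) fun _ => t).congr fun _ _ _ => Iff.rfl

theorem dfnUv {n : ℕ} (i : Fin n) :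
    Dfn.{u} (ext L) n (fun M _ v => PU L M (v i)) :=
  (dfnU (Term.var i)).congr fun _ _ _ => Iff.rfl

theorem dfnC {n : ℕ} (i j k : Fin n) :
    Dfn.{u} (ext L) n (fun M _ v => PC L M (v i) (v j) (v k)) :=
  (Dfn.relT (Sum.inr NewRel.C : (ext L).Relations 3)
    ![Term.var i, Term.var j, Term.var k]).congr fun M _ v => by
      unfold PC
      have : (fun l => (![Term.var i, Term.var j, Term.var k] l : (ext L).Term (Fin n)).realize v)
          = ![v i, v j, v k] := by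
        funext l
        fin_cases l <;> rfl
      rw [this]

theorem dfnEq {n : ℕ} (i j : Fin n) :
    Dfn.{u} (ext L) n (fun M _ v => v i = v j) :=
  (Dfn.eqT (Term.var i) (Term.var j)).congr fun _ _ _ => Iff.rfl

theorem dfnTrue (n : ℕ) : Dfn.{u} (ext L) n (fun _ _ _ => True) := by
  have h1 : Dfn.{u} (ext L) (n + 1) (fun _ _ v => v 0 = v 0) := dfnEq 0 0
  exact h1.all.true

theorem dfnForallFin {n k : ℕ} {P : Fin k → ∀ (M : Type u) [(ext L).Structure M],
    (Fin n → M) → Prop} (h : ∀ i, Dfn.{u} (ext L) n (P i)) :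
    Dfn.{u} (ext L) n (fun M _ v => ∀ i, P i M v) :=
  Dfn.ctblAll (dfnTrue n) h

/-- **The sentence.** -/
theorem exists_psi (hL : Countable L.Symbols) (φ : Fml L 0) :
    ∃ ψ : Fml (ext L) 0, ∀ (M : Type u) [(ext L).Structure M], Models M ψ ↔ Good φ M := by
  have hLF : Countable (Σ l, L.Functions l) :=
    Function.Injective.countable (β := L.Symbols) (f := Sum.inl) Sum.inl_injective
  have hLR : Countable (Σ l, L.Relations l) :=
    Function.Injective.countable (β := L.Symbols) (f := Sum.inr) Sum.inr_injective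
  have hLF' : Countable (Σ l, L.Functions (l + 1)) := by
    refine Function.Injective.countable (β := Σ l, L.Functions l)
      (f := fun x => ⟨x.1 + 1, x.2⟩) ?_
    rintro ⟨l, r⟩ ⟨l', r'⟩ h
    simp only [Sigma.mk.injEq, Nat.add_right_cancel_iff] at h
    obtain ⟨rfl, h⟩ := h
    rw [eq_of_heq h]
  have tr := dfnTrue.{u} (L := L)
  have d0 : Dfn.{u} (ext L) 0 (fun M _ _ => ∃ x, PU L M x) :=
    (dfnUv (Fin.last 0)).ex.congr fun M _ v => by simp only [Fin.snoc_last]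
  have d1 : Dfn.{u} (ext L) 0 (fun M _ _ => ∀ F : (Σ l, L.Functions l), ∀ x : Fin F.1 → M,
      (∀ i, PU L M (x i)) → PU L M (FirstOrder.Language.Structure.funMap (L := ext L)
        (F.2 : (ext L).Functions F.1) x)) := by
    refine Dfn.ctblAll (tr 0) fun F => Dfn.block ?_
    refine (dfnForallFin fun i => dfnUv i).imp ?_
    exact (dfnU (Term.func (F.2 : (ext L).Functions F.1) fun i => Term.var i)).congr
      fun _ _ _ => Iff.rfl
  have d2 : Dfn.{u} (ext L) 0 (fun M _ _ => ∀ F : (Σ l, L.Functions (l + 1)),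
      ∀ x : Fin (F.1 + 1) → M,
      (¬ ∀ i, PU L M (x i)) → FirstOrder.Language.Structure.funMap (L := ext L)
        (F.2 : (ext L).Functions (F.1 + 1)) x = x 0) := by
    refine Dfn.ctblAll (tr 0) fun F => Dfn.block ?_
    refine (dfnForallFin fun i => dfnUv i).not.imp ?_
    exact (Dfn.eqT (L' := ext L) (Term.func (L := ext L) (F.2 : (ext L).Functions (F.1 + 1))
      fun i => Term.var i) (Term.var 0)).congr fun _ _ _ => Iff.rfl
  have d3 : Dfn.{u} (ext L) 0 (fun M _ _ => ∀ R : (Σ l, L.Relations l), ∀ x : Fin R.1 → M,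
      FirstOrder.Language.Structure.RelMap (L := ext L) (Sum.inl R.2 : (ext L).Relations R.1) x →
      ∀ i, PU L M (x i)) := by
    refine Dfn.ctblAll (tr 0) fun R => Dfn.block ?_
    refine Dfn.imp ?_ (dfnForallFin fun i => dfnUv i)
    exact (Dfn.relT (Sum.inl R.2 : (ext L).Relations R.1) fun i => Term.var i).congr
      fun _ _ _ => Iff.rfl
  have d4 : Dfn.{u} (ext L) 0 (fun M _ _ => ∀ x : Fin 3 → M, PC L M (x 0) (x 1) (x 2) →
      ¬ PU L M (x 0) ∧ ¬ PU L M (x 1) ∧ PU L M (x 2) ∧ ¬ x 0 = x 1) :=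
    Dfn.block ((dfnC 0 1 2).imp ((dfnUv 0).not.and ((dfnUv 1).not.and ((dfnUv 2).and
      (dfnEq 0 1).not))))
  have d5 : Dfn.{u} (ext L) 0 (fun M _ _ => ∀ x : Fin 2 → M, ¬ PU L M (x 0) → ¬ PU L M (x 1) →
      ¬ x 0 = x 1 → ∃ a, PC L M ((Fin.snoc x a : Fin 3 → M) 0) ((Fin.snoc x a : Fin 3 → M) 1)
        ((Fin.snoc x a : Fin 3 → M) 2)) := by
    refine Dfn.block ((dfnUv 0).not.imp ((dfnUv 1).not.imp ((dfnEq 0 1).not.imp ?_)))
    exact (dfnC (n := 3) 0 1 2).ex
  have d6 : Dfn.{u} (ext L) 0 (fun M _ _ => ∀ x : Fin 4 → M, PC L M (x 0) (x 1) (x 2) →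
      PC L M (x 0) (x 1) (x 3) → x 2 = x 3) :=
    Dfn.block ((dfnC 0 1 2).imp ((dfnC 0 1 3).imp (dfnEq 2 3)))
  have d7 : Dfn.{u} (ext L) 0 (fun M _ _ => ∀ x : Fin 3 → M, PC L M (x 0) (x 1) (x 2) →
      PC L M (x 1) (x 0) (x 2)) :=
    Dfn.block ((dfnC 0 1 2).imp (dfnC 1 0 2))
  have d8 : Dfn.{u} (ext L) 0 (fun M _ _ => ∀ x : Fin 4 → M, PC L M (x 0) (x 1) (x 3) →
      PC L M (x 1) (x 2) (x 3) → ¬ PC L M (x 0) (x 2) (x 3)) :=
    Dfn.block ((dfnC 0 1 3).imp ((dfnC 1 2 3).imp (dfnC 0 2 3).not))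
  have d9 : Dfn.{u} (ext L) 0 (fun M _ _ => ∀ k : ℕ, ∀ x : Fin (k + k) → M,
      (∀ i : Fin k, ¬ PU L M (x (Fin.castAdd k i)) → PU L M (x (Fin.natAdd k i))) →
      (∀ i j : Fin k, ¬ PU L M (x (Fin.castAdd k i)) → x (Fin.castAdd k i) = x (Fin.castAdd k j) →
        x (Fin.natAdd k i) = x (Fin.natAdd k j)) →
      (∀ i j : Fin k, ¬ PU L M (x (Fin.castAdd k i)) → ¬ PU L M (x (Fin.castAdd k j)) →
        PC L M (x (Fin.castAdd k i)) (x (Fin.castAdd k j)) (x (Fin.natAdd k i)) →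
        ¬ x (Fin.natAdd k i) = x (Fin.natAdd k j)) →
      ∃ y, ¬ PU L M ((Fin.snoc x y : Fin (k + k + 1) → M) (Fin.last _)) ∧
        ∀ i : Fin k, ¬ PU L M ((Fin.snoc x y : Fin (k + k + 1) → M) (Fin.castAdd k i).castSucc) →
          PC L M ((Fin.snoc x y : Fin (k + k + 1) → M) (Fin.last _))
            ((Fin.snoc x y : Fin (k + k + 1) → M) (Fin.castAdd k i).castSucc)
            ((Fin.snoc x y : Fin (k + k + 1) → M) (Fin.natAdd k i).castSucc)) := by
    refine Dfn.natAll fun k => Dfn.block ?_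
    refine (dfnForallFin fun i => (dfnUv _).not.imp (dfnUv _)).imp
      ((dfnForallFin fun i => dfnForallFin fun j => (dfnUv _).not.imp
        ((dfnEq _ _).imp (dfnEq _ _))).imp
      ((dfnForallFin fun i => dfnForallFin fun j => (dfnUv _).not.imp
        ((dfnUv _).not.imp ((dfnC _ _ _).imp (dfnEq _ _).not))).imp ?_))
    exact ((dfnUv (Fin.last _)).not.and
      (dfnForallFin fun i => (dfnUv _).not.imp (dfnC _ _ _))).ex
  have d10 : Dfn.{u} (ext L) 0 (fun M _ _ => Models M φ.relat) :=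
    ⟨φ.relat, fun M _ v => by
      change φ.relat.Realize v ↔ φ.relat.Realize Fin.elim0
      rw [Subsingleton.elim v Fin.elim0]⟩
  obtain ⟨ψ, hψ⟩ := d0.and (d1.and (d2.and (d3.and (d4.and (d5.and (d6.and (d7.and (d8.and
    (d9.and d10)))))))))
  refine ⟨ψ, fun M _ => ?_⟩
  rw [Models, hψ M Fin.elim0]
  constructor
  · rintro ⟨h0, h1, h2, h3, h4, h5, h6, h7, h8, h9, h10⟩
    refine ⟨h0, fun k F x => h1 ⟨k, F⟩ x, fun k F x => h2 ⟨k, F⟩ x, fun k R x => h3 ⟨k, R⟩ x,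
      fun x y z => h4 ![x, y, z], fun x y => h5 ![x, y], fun x y z z' => h6 ![x, y, z, z'],
      fun x y z => h7 ![x, y, z], fun x y z w => h8 ![x, y, z, w], ?_, h10⟩
    intro k x a a1 a2 a3
    have := h9 k (Fin.append x a)
    simp only [Fin.append_left, Fin.append_right, Fin.snoc_last, Fin.snoc_castSucc] at this
    exact this a1 a2 a3
  · intro h
    refine ⟨h.neU, fun F x => h.funU F.1 F.2 x, fun F x => h.funJ F.1 F.2 x,
      fun R x => h.relU R.1 R.2 x, fun x => h.Cdom _ _ _, fun x => h.Cex _ _,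
      fun x => h.Cun _ _ _ _, fun x => h.Csym _ _ _, fun x => h.Ctri _ _ _ _, ?_, h.mod⟩
    intro k x a1 a2 a3
    simp only [Fin.snoc_last, Fin.snoc_castSucc]
    exact h.Cext k (fun i => x (Fin.castAdd k i)) (fun i => x (Fin.natAdd k i)) a1 a2 a3

end Pool.Agent.Lib.MP_cad5e4_lc
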