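import Pool.Agent.Lib.MP_cad5e4_lc.Exist
import Pool.Agent.Lib.MP_cad5e4_lc.Psi
import Pool.Agent.Lib.MP_cad5e4_lc.Bound

/-!
# Completely characterizable cardinals are closed under the power set operation
-/

open FirstOrder Cardinal Set

universe u

namespace Pool.Agent.Lib.MP_cad5e4_lc

variable {L : FirstOrder.Language.{0, 0}} {φ : Fml L 0}

/-- A sentence with a large model has models in all smaller infinite cardinalities. -/
theorem exists_model_card (hL : Countable L.Symbols) (M : Type u) [L.Structure M]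
    (φ : Fml L 0) (hM : Models M φ) {c : Cardinal.{u}} (hc : ℵ₀ ≤ c) (hcM : c ≤ #M) :
    ∃ (N : Type u) (_ : L.Structure N), #N = c ∧ Models N φ := by
  have hne : Nonempty M := by
    rw [← Cardinal.mk_ne_zero_iff]
    exact (Cardinal.aleph0_pos.trans_le (hc.trans hcM)).ne'
  obtain ⟨X, hX⟩ := Cardinal.le_mk_iff_exists_set.1 hcM
  obtain ⟨S, h1, h2, _, h4⟩ := exists_small_models hL M φ X
  refine ⟨S, inferInstance, le_antisymm ?_ ?_, h4.2 hM⟩
  · rw [hX] at h2
    exact h2.trans (max_le hc le_rfl)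
  · rw [← hX]
    exact Cardinal.mk_le_mk_of_subset h1

/-- **Main theorem.** -/
theorem main {κ : Cardinal.{u}} (h : CompletelyCharacterizable κ) :
    CompletelyCharacterizable (2 ^ κ) := by
  classical
  obtain ⟨L, φ, hL, hφ, hκ, hmod, hno⟩ := h
  obtain ⟨ψ, hψ⟩ := exists_psi.{u} hL φ
  have hL' := countable_ext hL
  have hκ2 : κ < 2 ^ κ := Cardinal.cantor κ
  -- every model of `φ` has size at most `κ`
  have hle : ∀ (A : Type u) [L.Structure A], Models A φ → #A ≤ κ := by
    intro A _ hA
    by_contra hcon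
    push Not at hcon
    exact hno (exists_model_card hL A φ hA (hκ.trans (Order.le_succ κ))
      (Order.succ_le_of_lt hcon))
  -- every nonempty model of `φ` is infinite
  have hinf : ∀ (A : Type u) [L.Structure A] [Nonempty A], Models A φ → ℵ₀ ≤ #A := by
    intro A _ _ hA
    by_contra hcon
    push Not at hcon
    obtain ⟨A0, i0, h1, h2⟩ := hmod ℵ₀ le_rfl hκ
    have c1 : Countable A := Cardinal.mk_le_aleph0_iff.1 hcon.le
    have c2 : Countable A0 := Cardinal.mk_le_aleph0_iff.1 h1.le
    have c3 : Nonempty A0 := by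
      rw [← Cardinal.mk_ne_zero_iff, h1]
      exact Cardinal.aleph0_ne_zero
    obtain ⟨e⟩ := countable_iso hφ hA h2
    have := Cardinal.mk_congr e.toEquiv
    rw [h1] at this
    exact absurd this hcon.ne
  refine ⟨ext L, ψ, hL', ?_, hκ.trans hκ2.le, ?_, ?_⟩
  · refine complete_of_iso hL' ?_
    intro M N _ _ _ _ _ _ hM hN
    exact good_iso hφ ((hψ M).1 hM) ((hψ N).1 hN)
  · intro c hc hc2
    obtain ⟨A, iA, hA1, hA2⟩ := hmod κ hκ le_rfl
    have hAinf : Infinite A := by
      rw [← Cardinal.aleph0_le_mk_iff, hA1]; exact hκ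
    obtain ⟨V, col, hV1, hV2, hV3, hV4⟩ := exists_coloring A
    let _ := bigS (L := L) A V col
    have hgood : Good φ (A ⊕ V) := big_good A V hA2 col hV2 hV3 hV4
    have hM : Models (A ⊕ V) ψ := (hψ (A ⊕ V)).2 hgood
    refine exists_model_card hL' (A ⊕ V) ψ hM hc (hc2.trans ?_)
    rw [Cardinal.mk_sum, Cardinal.lift_id, Cardinal.lift_id, hV1, hA1]
    exact le_add_self
  · rintro ⟨M, iM, hM1, hM2⟩
    have hg := (hψ M).1 hM2
    let _ := redS L M
    have hne := subU_nonempty hg
    have hU1 : #(subU M hg) ≤ κ := hle _ (subU_models hg)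
    have hU2 : ℵ₀ ≤ #(subU M hg) := hinf _ (subU_models hg)
    -- the colouring of the other sort
    let B := {x : M // ¬ PU L M x}
    have hcol : ∀ x y : B, ∃ z : subU M hg, x ≠ y → PC L M x y z := by
      intro x y
      by_cases hxy : x = y
      · obtain ⟨z⟩ := hne
        exact ⟨z, fun h => absurd hxy h⟩
      · obtain ⟨z, hz⟩ := hg.Cex x y x.2 y.2 (fun h => hxy (Subtype.ext h))
        exact ⟨⟨z, (hg.Cdom _ _ _ hz).2.2.1⟩, fun _ => hz⟩
    choose col hcol using hcol
    have hB : #B ≤ 2 ^ #(subU M hg) := by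
      refine card_le_two_pow hU2 col ?_
      intro x y z hxy hyz hxz h1 h2
      have a1 := hcol x y hxy
      have a2 := hcol y z hyz
      have a3 := hcol x z hxz
      rw [h1] at a1
      rw [h2] at a3
      exact hg.Ctri _ _ _ _ a1 a2 a3
    have hB2 : #B ≤ 2 ^ κ := hB.trans (Cardinal.power_le_power_left two_ne_zero hU1)
    have hM3 : #M ≤ 2 ^ κ := by
      have h1 : #M = #{x : M // PU L M x} + #{x : M // ¬ PU L M x} :=
        (Cardinal.mk_sum_compl {x : M | PU L M x}).symm
      rw [h1]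
      have h2 : #{x : M // PU L M x} ≤ 2 ^ κ := hU1.trans hκ2.le
      refine (add_le_add h2 hB2).trans ?_
      rw [Cardinal.add_eq_self (hκ.trans hκ2.le)]
    rw [hM1] at hM3
    exact absurd hM3 (not_le.2 (Order.lt_succ _))

end Pool.Agent.Lib.MP_cad5e4_lc
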