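import Pool.Agent.Lib.MP_cad5e4_lc.LS

/-!
# Back and forth; countable models of a complete sentence are isomorphic
-/

open FirstOrder Cardinal Set

universe u

namespace Pool.Agent.Lib.MP_cad5e4_lc

theorem exists_seq {M N : Type u} [Countable M] [Countable N] [Nonempty M] [Nonempty N]
    (E : ∀ n, (Fin n → M) → (Fin n → N) → Prop) (h0 : E 0 Fin.elim0 Fin.elim0)
    (forth : ∀ n v w, E n v w → ∀ a, ∃ b, E (n + 1) (Fin.snoc v a) (Fin.snoc w b))
    (back : ∀ n v w, E n v w → ∀ b, ∃ a, E (n + 1) (Fin.snoc v a) (Fin.snoc w b)) :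
    ∃ (f : ℕ → M) (g : ℕ → N), Function.Surjective f ∧ Function.Surjective g ∧
      ∀ n, E n (fun i => f i) (fun i => g i) := by
  obtain ⟨t, ht⟩ := exists_surjective_nat (M ⊕ N)
  have step : ∀ n v w, E n v w → ∃ p : M × N, E (n + 1) (Fin.snoc v p.1) (Fin.snoc w p.2) ∧
      (∀ a, t n = Sum.inl a → p.1 = a) ∧ (∀ b, t n = Sum.inr b → p.2 = b) := by
    intro n v w h
    rcases htn : t n with a | b
    · obtain ⟨b, hb⟩ := forth n v w h a
      refine ⟨(a, b), hb, ?_, ?_⟩
      · intro a' h; exact Sum.inl.inj h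
      · intro b' h; exact absurd h (by simp)
    · obtain ⟨a, ha⟩ := back n v w h b
      refine ⟨(a, b), ha, ?_, ?_⟩
      · intro a' h; exact absurd h (by simp)
      · intro b' h; exact Sum.inr.inj h
  choose p hp using step
  let s : ∀ n, {q : (Fin n → M) × (Fin n → N) // E n q.1 q.2} := fun n =>
    Nat.rec ⟨(Fin.elim0, Fin.elim0), h0⟩
      (fun n q => ⟨(Fin.snoc q.1.1 (p n q.1.1 q.1.2 q.2).1, Fin.snoc q.1.2 (p n q.1.1 q.1.2 q.2).2),
        (hp n q.1.1 q.1.2 q.2).1⟩) n
  let f : ℕ → M := fun n => (p n (s n).1.1 (s n).1.2 (s n).2).1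
  let g : ℕ → N := fun n => (p n (s n).1.1 (s n).1.2 (s n).2).2
  have hf : ∀ n, (s n).1.1 = fun i : Fin n => f i := by
    intro n
    induction n with
    | zero => funext i; exact i.elim0
    | succ n ih =>
      change (Fin.snoc (s n).1.1 (f n) : Fin (n + 1) → M) = _
      funext i
      refine Fin.lastCases ?_ (fun i => ?_) i
      · simp
      · simp [ih]
  have hg : ∀ n, (s n).1.2 = fun i : Fin n => g i := by
    intro n
    induction n with
    | zero => funext i; exact i.elim0
    | succ n ih =>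
      change (Fin.snoc (s n).1.2 (g n) : Fin (n + 1) → N) = _
      funext i
      refine Fin.lastCases ?_ (fun i => ?_) i
      · simp
      · simp [ih]
  refine ⟨f, g, fun a => ?_, fun b => ?_, fun n => ?_⟩
  · obtain ⟨n, hn⟩ := ht (Sum.inl a)
    exact ⟨n, (hp n _ _ (s n).2).2.1 a hn⟩
  · obtain ⟨n, hn⟩ := ht (Sum.inr b)
    exact ⟨n, (hp n _ _ (s n).2).2.2 b hn⟩
  · rw [← hf, ← hg]
    exact (s n).2

theorem exists_bound {k : ℕ} (x : Fin k → ℕ) : ∃ n, ∀ i, x i < n := by
  refine ⟨(Finset.univ.sup x) + 1, fun i => Nat.lt_succ_of_le ?_⟩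
  exact Finset.le_sup (f := x) (Finset.mem_univ i)

variable {L : FirstOrder.Language.{0, 0}}

/-- **Scott**: countable structures satisfying the same `L_{ω₁,ω}`-sentences are isomorphic. -/
theorem scott {M N : Type u} [L.Structure M] [L.Structure N] [Countable M] [Countable N]
    [Nonempty M] [Nonempty N] (h : ∀ θ : Fml L 0, Models M θ ↔ Models N θ) :
    Nonempty (M ≃[L] N) := by
  classical
  let E : ∀ n, (Fin n → M) → (Fin n → N) → Prop := fun n v w =>
    ∀ χ : Fml L n, χ.Realize v ↔ χ.Realize w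
  obtain ⟨f, g, hf, hg, hE⟩ := exists_seq E h
    (by
      intro n v w hvw a
      by_contra hcon
      push Not at hcon
      have h1 : ∀ b : N, ∃ χ : Fml L (n + 1), χ.Realize (Fin.snoc v a : Fin (n + 1) → M) ∧
          ¬ χ.Realize (Fin.snoc w b : Fin (n + 1) → N) := by
        intro b
        have := hcon b
        simp only [E, not_forall] at this
        obtain ⟨χ, hχ⟩ := this
        by_cases h2 : χ.Realize (Fin.snoc v a : Fin (n + 1) → M)
        · exact ⟨χ, h2, fun h3 => hχ ⟨fun _ => h3, fun _ => h2⟩⟩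
        · refine ⟨χ.neg, h2, fun h3 => hχ ⟨fun h4 => absurd h4 h2, fun h4 => absurd h4 h3⟩⟩
      choose χ hχ1 hχ2 using h1
      obtain ⟨e, he⟩ := exists_surjective_nat N
      have h3 := (hvw (Fml.neg (Fml.all (Fml.neg (Fml.conj fun i => χ (e i)))))).1
        (fun h4 => h4 a fun i => hχ1 (e i))
      apply h3
      intro b h4
      obtain ⟨i, rfl⟩ := he b
      exact hχ2 _ (h4 i))
    (by
      intro n v w hvw b
      by_contra hcon
      push Not at hcon
      have h1 : ∀ a : M, ∃ χ : Fml L (n + 1), ¬ χ.Realize (Fin.snoc v a : Fin (n + 1) → M) ∧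
          χ.Realize (Fin.snoc w b : Fin (n + 1) → N) := by
        intro a
        have := hcon a
        simp only [E, not_forall] at this
        obtain ⟨χ, hχ⟩ := this
        by_cases h2 : χ.Realize (Fin.snoc w b : Fin (n + 1) → N)
        · exact ⟨χ, fun h3 => hχ ⟨fun _ => h2, fun _ => h3⟩, h2⟩
        · refine ⟨χ.neg, fun h3 => hχ ⟨fun h4 => absurd h4 h3, fun h4 => absurd h4 h2⟩, h2⟩
      choose χ hχ1 hχ2 using h1
      obtain ⟨e, he⟩ := exists_surjective_nat M
      have h3 := (hvw (Fml.neg (Fml.all (Fml.neg (Fml.conj fun i => χ (e i)))))).2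
        (fun h4 => h4 b fun i => hχ2 (e i))
      apply h3
      intro a h4
      obtain ⟨i, rfl⟩ := he a
      exact hχ1 _ (h4 i))
  have hinj : ∀ i j, f i = f j ↔ g i = g j := by
    intro i j
    have := hE (max i j + 1) (Fml.eq (FirstOrder.Language.Term.var ⟨i, by omega⟩)
      (FirstOrder.Language.Term.var ⟨j, by omega⟩))
    simpa [Fml.Realize] using this
  choose fi hfi using hf
  choose gi hgi using hg
  let e : M ≃ N :=
    { toFun := fun a => g (fi a)
      invFun := fun b => f (gi b)
      left_inv := fun a => by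
        have h1 : g (gi (g (fi a))) = g (fi a) := hgi _
        rw [← hinj, hfi] at h1
        exact h1
      right_inv := fun b => by
        have h1 : f (fi (f (gi b))) = f (gi b) := hfi _
        rw [hinj, hgi] at h1
        exact h1 }
  have he : ∀ i, e (f i) = g i := fun i => (hinj _ _).1 (hfi (f i))
  refine ⟨{ toEquiv := e, map_fun' := ?_, map_rel' := ?_ }⟩
  · intro k F x
    obtain ⟨n, hn⟩ := exists_bound (fun j => fi (x j))
    let m := max n (fi (FirstOrder.Language.Structure.funMap F x) + 1)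
    have := hE m (Fml.eq (FirstOrder.Language.Term.func F fun j =>
      FirstOrder.Language.Term.var ⟨fi (x j), lt_of_lt_of_le (hn j) (le_max_left _ _)⟩)
      (FirstOrder.Language.Term.var ⟨fi (FirstOrder.Language.Structure.funMap F x),
        lt_of_lt_of_le (Nat.lt_succ_self _) (le_max_right _ _)⟩))
    simp only [Fml.Realize, FirstOrder.Language.Term.realize_func,
      FirstOrder.Language.Term.realize_var] at this
    have h2 := this.1 (by rw [hfi]; congr 1; funext j; exact hfi _)
    exact h2.symm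
  · intro k R x
    obtain ⟨n, hn⟩ := exists_bound (fun j => fi (x j))
    have := hE n (Fml.rel R fun j => FirstOrder.Language.Term.var ⟨fi (x j), hn j⟩)
    simp only [Fml.Realize, FirstOrder.Language.Term.realize_var] at this
    rw [show (fun i => f (fi (x i))) = x from funext fun j => hfi _] at this
    exact this.symm

/-- Countable models of a complete sentence are isomorphic. -/
theorem countable_iso {φ : Fml L 0} (hφ : IsComplete.{u} φ) {M N : Type u} [L.Structure M]
    [L.Structure N] [Countable M] [Countable N] [Nonempty M] [Nonempty N]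
    (hM : Models M φ) (hN : Models N φ) : Nonempty (M ≃[L] N) := by
  refine scott fun θ => ?_
  rcases hφ θ with h | h
  · exact ⟨fun _ => h N hN, fun _ => h M hM⟩
  · exact ⟨fun h1 => absurd h1 (h M hM), fun h1 => absurd h1 (h N hN)⟩

/-- conjunction of two sentences -/
def andF {n : ℕ} (φ θ : Fml L n) : Fml L n := Fml.conj fun i => if i = 0 then φ else θ

theorem models_and (M : Type u) [L.Structure M] (φ θ : Fml L 0) :
    Models M (andF φ θ) ↔ Models M φ ∧ Models M θ := by
  constructor
  · intro h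
    exact ⟨by simpa [Models] using h 0, by simpa [Models] using h 1⟩
  · rintro ⟨h1, h2⟩ i
    by_cases hi : i = 0
    · simpa [hi, Models] using h1
    · simpa [hi, Models] using h2

/-- A satisfiable-in-the-countable `ℵ₀`-categorical sentence is complete. -/
theorem complete_of_iso (hL : Countable L.Symbols) {φ : Fml L 0}
    (h : ∀ (M N : Type u) [L.Structure M] [L.Structure N] [Countable M] [Countable N]
      [Nonempty M] [Nonempty N], Models M φ → Models N φ → Nonempty (M ≃[L] N)) :
    IsComplete.{u} φ := by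
  intro θ
  by_contra hcon
  push Not at hcon
  obtain ⟨⟨M, iM, nM, hM1, hM2⟩, ⟨N, iN, nN, hN1, hN2⟩⟩ := hcon
  have key : ∀ (K : Type u) [L.Structure K] [Nonempty K] (χ : Fml L 0), Models K χ →
      ∃ (S : L.Substructure K), Countable S ∧ Nonempty S ∧ Models S χ := by
    intro K _ _ χ hK
    obtain ⟨S, _, h2, h3, h4⟩ := exists_small_models hL K χ ∅
    refine ⟨S, ?_, h3, h4.2 hK⟩
    rw [← Cardinal.mk_le_aleph0_iff]
    simpa using h2
  obtain ⟨S, hS1, hS2, hS3⟩ := key M (andF φ (Fml.neg θ)) ((models_and _ _ _).2 ⟨hM1, hM2⟩)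
  obtain ⟨T, hT1, hT2, hT3⟩ := key N (andF φ θ) ((models_and _ _ _).2 ⟨hN1, hN2⟩)
  rw [models_and] at hS3 hT3
  obtain ⟨e⟩ := h S T hS3.1 hT3.1
  exact hS3.2 ((models_equiv e θ).2 hT3.2)

end Pool.Agent.Lib.MP_cad5e4_lc
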