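import Pool.Agent.Lib.MP_cad5e4_lc.Scott

/-!
# The sentence `ψ` built from `φ`: definability lemmas
-/

open FirstOrder Cardinal Set

universe u

namespace Pool.Agent.Lib.MP_cad5e4_lc

open FirstOrder.Language (Term)

section Def

variable {L' : FirstOrder.Language.{0, 0}}

/-- a uniformly `L_{ω₁,ω}`-definable predicate of `n` variables -/
def Dfn (L' : FirstOrder.Language.{0, 0}) (n : ℕ)
    (P : ∀ (M : Type u) [L'.Structure M], (Fin n → M) → Prop) : Prop :=
  ∃ χ : Fml L' n, ∀ (M : Type u) [L'.Structure M] (v : Fin n → M), χ.Realize v ↔ P M v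

variable {n : ℕ} {P Q : ∀ (M : Type u) [L'.Structure M], (Fin n → M) → Prop}

theorem Dfn.congr (h : Dfn.{u} L' n P)
    (h2 : ∀ (M : Type u) [L'.Structure M] (v : Fin n → M), P M v ↔ Q M v) : Dfn.{u} L' n Q := by
  obtain ⟨χ, hχ⟩ := h
  exact ⟨χ, fun M _ v => (hχ M v).trans (h2 M v)⟩

theorem Dfn.not (h : Dfn.{u} L' n P) : Dfn.{u} L' n (fun M _ v => ¬ P M v) := by
  obtain ⟨χ, hχ⟩ := h
  exact ⟨χ.neg, fun M _ v => not_congr (hχ M v)⟩

theorem Dfn.natAll {P : ℕ → ∀ (M : Type u) [L'.Structure M], (Fin n → M) → Prop}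
    (h : ∀ i, Dfn.{u} L' n (P i)) : Dfn.{u} L' n (fun M _ v => ∀ i, P i M v) := by
  choose χ hχ using h
  exact ⟨Fml.conj χ, fun M _ v => forall_congr' fun i => hχ i M v⟩

theorem Dfn.and (h : Dfn.{u} L' n P) (h' : Dfn.{u} L' n Q) :
    Dfn.{u} L' n (fun M _ v => P M v ∧ Q M v) := by
  have := Dfn.natAll (P := fun i M _ v => if i = 0 then P M v else Q M v) (fun i => by
    by_cases hi : i = 0
    · simpa [hi] using h
    · simpa [hi] using h')
  refine this.congr fun M _ v => ⟨fun h => ⟨by simpa using h 0, by simpa using h 1⟩, ?_⟩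
  rintro ⟨h1, h2⟩ i
  by_cases hi : i = 0
  · simpa [hi] using h1
  · simpa [hi] using h2

theorem Dfn.imp (h : Dfn.{u} L' n P) (h' : Dfn.{u} L' n Q) :
    Dfn.{u} L' n (fun M _ v => P M v → Q M v) := by
  refine (h.and h'.not).not.congr fun M _ v => ?_
  tauto

/-- the true predicate, given that there is some definable predicate -/
theorem Dfn.true (h : Dfn.{u} L' n P) : Dfn.{u} L' n (fun _ _ _ => True) :=
  (h.imp h).congr fun M _ v => by tauto

theorem Dfn.ctblAll {ι : Type} [Countable ι]
    {P : ι → ∀ (M : Type u) [L'.Structure M], (Fin n → M) → Prop}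
    (h0 : Dfn.{u} L' n (fun _ _ _ => True))
    (h : ∀ i, Dfn.{u} L' n (P i)) : Dfn.{u} L' n (fun M _ v => ∀ i, P i M v) := by
  cases isEmpty_or_nonempty ι with
  | inl hι => exact h0.congr fun M _ v => ⟨fun _ i => hι.elim i, fun _ => trivial⟩
  | inr hι =>
    obtain ⟨e, he⟩ := exists_surjective_nat ι
    refine (Dfn.natAll fun i => h (e i)).congr fun M _ v => ⟨fun h i => ?_, fun h i => h _⟩
    obtain ⟨j, rfl⟩ := he i
    exact h j

theorem Dfn.all {P : ∀ (M : Type u) [L'.Structure M], (Fin (n + 1) → M) → Prop}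
    (h : Dfn.{u} L' (n + 1) P) :
    Dfn.{u} L' n (fun M _ v => ∀ a, P M (Fin.snoc v a)) := by
  obtain ⟨χ, hχ⟩ := h
  exact ⟨χ.all, fun M _ v => forall_congr' fun a => hχ M _⟩

theorem Dfn.ex {P : ∀ (M : Type u) [L'.Structure M], (Fin (n + 1) → M) → Prop}
    (h : Dfn.{u} L' (n + 1) P) :
    Dfn.{u} L' n (fun M _ v => ∃ a, P M (Fin.snoc v a)) := by
  refine h.not.all.not.congr fun M _ v => ?_
  push Not
  rfl

theorem Dfn.block : ∀ {n : ℕ} {P : ∀ (M : Type u) [L'.Structure M], (Fin n → M) → Prop},
    Dfn.{u} L' n P → Dfn.{u} L' 0 (fun M _ _ => ∀ x : Fin n → M, P M x)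
  | 0, P, h => h.congr fun M _ v => ⟨fun h x => by rwa [Subsingleton.elim x v], fun h => h v⟩
  | n + 1, P, h => by
    refine (Dfn.block h.all).congr fun M _ v => ⟨fun h x => ?_, fun h x a => h _⟩
    have := h (Fin.init x) (x (Fin.last n))
    rwa [Fin.snoc_init_self] at this

theorem Dfn.eqT (s t : L'.Term (Fin n)) :
    Dfn.{u} L' n (fun M _ v => s.realize v = t.realize v) :=
  ⟨Fml.eq s t, fun _ _ _ => Iff.rfl⟩

theorem Dfn.relT {k : ℕ} (R : L'.Relations k) (ts : Fin k → L'.Term (Fin n)) :
    Dfn.{u} L' n (fun M _ v =>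
      FirstOrder.Language.Structure.RelMap R fun i => (ts i).realize v) :=
  ⟨Fml.rel R ts, fun _ _ _ => Iff.rfl⟩

end Def

/-- the new relation symbols: a unary one for the sort of colours, a ternary one for the graph of
the colouring -/
inductive NewRel : ℕ → Type
  | U : NewRel 1
  | C : NewRel 3

/-- the extended language -/
def ext (L : FirstOrder.Language.{0, 0}) : FirstOrder.Language.{0, 0} :=
  ⟨L.Functions, fun n => L.Relations n ⊕ NewRel n⟩

/-- the inclusion of languages -/
def inc (L : FirstOrder.Language.{0, 0}) : L →ᴸ ext L where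
  onFunction _ f := f
  onRelation _ r := Sum.inl r

variable (L : FirstOrder.Language.{0, 0})

section

variable (M : Type u) [(ext L).Structure M]

/-- the `L`-reduct -/
@[instance_reducible]
def redS : L.Structure M := (inc L).reduct M

/-- the sort of colours -/
def PU (x : M) : Prop :=
  FirstOrder.Language.Structure.RelMap (L := ext L) (Sum.inr NewRel.U : (ext L).Relations 1)
    fun _ => x

/-- the graph of the colouring -/
def PC (x y z : M) : Prop :=
  FirstOrder.Language.Structure.RelMap (L := ext L) (Sum.inr NewRel.C : (ext L).Relations 3)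
    ![x, y, z]

end

variable {L}

theorem countable_ext (hL : Countable L.Symbols) : Countable (ext L).Symbols := by
  have h1 : Countable (Σ l, L.Functions l) :=
    Function.Injective.countable (β := L.Symbols) (f := Sum.inl) Sum.inl_injective
  have h2 : Countable (Σ l, L.Relations l) :=
    Function.Injective.countable (β := L.Symbols) (f := Sum.inr) Sum.inr_injective
  have h3 : Countable (Σ l, NewRel l) := by
    refine Function.Injective.countable (β := ℕ) (f := fun x => x.1) ?_
    rintro ⟨l, r⟩ ⟨l', r'⟩ h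
    simp only at h
    subst h
    cases r <;> cases r' <;> rfl
  have h4 : Countable (Σ l, (ext L).Relations l) := by
    have : Function.Injective (fun x : Σ l, (ext L).Relations l =>
        (match x with
        | ⟨l, Sum.inl f⟩ => Sum.inl ⟨l, f⟩
        | ⟨l, Sum.inr f⟩ => Sum.inr ⟨l, f⟩ : (Σ l, L.Relations l) ⊕ (Σ l, NewRel l))) := by
      rintro ⟨l, f | f⟩ ⟨l', f' | f'⟩ h
      · simp only [Sum.inl.injEq, Sigma.mk.injEq] at h
        obtain ⟨rfl, h⟩ := h
        rw [eq_of_heq h]
      · simp at h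
      · simp at h
      · simp only [Sum.inr.injEq, Sigma.mk.injEq] at h
        obtain ⟨rfl, h⟩ := h
        rw [eq_of_heq h]
    exact this.countable
  have h5 : Countable (Σ l, (ext L).Functions l) := h1
  exact inferInstanceAs (Countable ((Σ l, (ext L).Functions l) ⊕ (Σ l, (ext L).Relations l)))

/-- relativization of a formula to the sort of colours -/
def Fml.relat : {n : ℕ} → Fml L n → Fml (ext L) n
  | _, .eq s t => .eq ((inc L).onTerm s) ((inc L).onTerm t)
  | _, .rel R ts => .rel (Sum.inl R : (ext L).Relations _) fun i => (inc L).onTerm (ts i)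
  | _, .neg φ => .neg φ.relat
  | _, .conj φ => .conj fun i => (φ i).relat
  | n, .all φ => .all (.neg (andF (.rel (Sum.inr NewRel.U : (ext L).Relations 1)
      fun _ => Term.var (Fin.last n)) (.neg φ.relat)))

theorem realize_andF {L' : FirstOrder.Language.{0, 0}} {M : Type u} [L'.Structure M] {n : ℕ}
    (φ θ : Fml L' n) (v : Fin n → M) :
    (andF φ θ).Realize v ↔ φ.Realize v ∧ θ.Realize v := by
  constructor
  · intro h
    exact ⟨by simpa using h 0, by simpa using h 1⟩
  · rintro ⟨h1, h2⟩ i
    by_cases hi : i = 0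
    · simpa [hi] using h1
    · simpa [hi] using h2

theorem realize_relat (M : Type u) [(ext L).Structure M] {n : ℕ} (φ : Fml L n) :
    letI := redS L M
    ∀ (S : L.Substructure M), (∀ x : M, x ∈ S ↔ PU L M x) →
    ∀ v : Fin n → S, φ.relat.Realize (fun i => (v i : M)) ↔ φ.Realize v := by
  let _ := redS L M
  have hexp : (inc L).IsExpansionOn M := FirstOrder.Language.LHom.isExpansionOn_reduct _ _
  intro S hS
  induction φ with
  | eq s t =>
    intro v
    simp only [Fml.relat, Fml.Realize, FirstOrder.Language.LHom.realize_onTerm]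
    have h1 := FirstOrder.Language.realize_term_substructure v s
    have h2 := FirstOrder.Language.realize_term_substructure v t
    rw [show (fun j => (v j : M)) = Subtype.val ∘ v from rfl, h1, h2]
    exact Subtype.coe_inj
  | rel R ts =>
    intro v
    simp only [Fml.relat, Fml.Realize, FirstOrder.Language.LHom.realize_onTerm]
    have h1 := fun i => FirstOrder.Language.realize_term_substructure v (ts i)
    rw [show (fun j => (v j : M)) = Subtype.val ∘ v from rfl]
    simp only [h1]
    rfl
  | neg φ ih => exact fun v => not_congr (ih v)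
  | conj φ ih => exact fun v => forall_congr' fun i => ih i v
  | @all n φ ih =>
    intro v
    simp only [Fml.relat, Fml.Realize, realize_andF, Term.realize_var, Fin.snoc_last]
    constructor
    · intro h a
      have h2 := h (a : M)
      rw [← ih, snoc_coe]
      by_contra h3
      exact h2 ⟨(hS _).1 a.2, h3⟩
    · rintro h a ⟨h1, h2⟩
      apply h2
      have := (ih _).2 (h ⟨a, (hS a).2 h1⟩)
      rwa [snoc_coe] at this

/-- the axioms -/
structure Good (φ : Fml L 0) (M : Type u) [(ext L).Structure M] : Prop where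
  neU : ∃ x, PU L M x
  funU : ∀ (k : ℕ) (F : L.Functions k) (x : Fin k → M), (∀ i, PU L M (x i)) →
    PU L M (FirstOrder.Language.Structure.funMap (L := ext L) (F : (ext L).Functions k) x)
  funJ : ∀ (k : ℕ) (F : L.Functions (k + 1)) (x : Fin (k + 1) → M), (¬ ∀ i, PU L M (x i)) →
    FirstOrder.Language.Structure.funMap (L := ext L) (F : (ext L).Functions (k + 1)) x = x 0
  relU : ∀ (k : ℕ) (R : L.Relations k) (x : Fin k → M),
    FirstOrder.Language.Structure.RelMap (L := ext L) (Sum.inl R : (ext L).Relations k) x →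
    ∀ i, PU L M (x i)
  Cdom : ∀ x y z, PC L M x y z → ¬ PU L M x ∧ ¬ PU L M y ∧ PU L M z ∧ x ≠ y
  Cex : ∀ x y, ¬ PU L M x → ¬ PU L M y → x ≠ y → ∃ z, PC L M x y z
  Cun : ∀ x y z z', PC L M x y z → PC L M x y z' → z = z'
  Csym : ∀ x y z, PC L M x y z → PC L M y x z
  Ctri : ∀ x y z w, PC L M x y w → PC L M y z w → PC L M x z w → False
  Cext : ∀ (k : ℕ) (x a : Fin k → M), (∀ i, ¬ PU L M (x i) → PU L M (a i)) →
    (∀ i j, ¬ PU L M (x i) → x i = x j → a i = a j) →
    (∀ i j, ¬ PU L M (x i) → ¬ PU L M (x j) → PC L M (x i) (x j) (a i) → a i ≠ a j) →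
    ∃ y, ¬ PU L M y ∧ ∀ i, ¬ PU L M (x i) → PC L M y (x i) (a i)
  mod : Models M φ.relat

end Pool.Agent.Lib.MP_cad5e4_lc
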